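import Pool.Agent.Helper897.ZS.Dbar4

open MeasureTheory Metric Set Filter Topology Complex
open scoped Convolution ContDiff Interval

namespace MP8a09

noncomputable section

/-- **`∂̄`-correction.**  If `F` is real differentiable and non-vanishing on a bounded open set `Ω`
and `|∂̄F| ≤ C|F|`, then `F e^{-v}` is holomorphic in `Ω` for some bounded `v`. -/
theorem dbar_correction {Ω : Set ℂ} (hΩ : IsOpen Ω) (hb : Bornology.IsBounded Ω) {F : ℂ → ℂ}
    (hF : ∀ z ∈ Ω, DifferentiableAt ℝ F z) (hne : ∀ z ∈ Ω, F z ≠ 0) {C : ℝ} (hC0 : 0 ≤ C)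
    (hC : ∀ z ∈ Ω, ‖db (fderiv ℝ F z)‖ ≤ C * ‖F z‖) :
    ∃ v : ℂ → ℂ, (∃ M, ∀ z, ‖v z‖ ≤ M) ∧ DifferentiableOn ℂ (fun z => F z * exp (-v z)) Ω := by
  classical
  have hFc : ContinuousOn F Ω := fun z hz => (hF z hz).continuousAt.continuousWithinAt
  -- the density
  let e : ℂ → ℂ := fun z => db (fderiv ℝ F z) / Ω.indicator F z
  have hFm : Measurable (Ω.indicator F) := by
    rw [← Set.piecewise_eq_indicator]
    exact ContinuousOn.measurable_piecewise hFc continuousOn_const hΩ.measurableSet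
  have hem : Measurable e := by
    have h1 : Measurable (fderiv ℝ F) := measurable_fderiv ℝ F
    have h2 : ∀ v : ℂ, Measurable (fun z => fderiv ℝ F z v) := fun v =>
      measurable_fderiv_apply_const ℝ F v
    unfold e db
    exact (((h2 1).const_mul I).sub (h2 I)).div hFm
  have heC : ∀ z, ‖e z‖ ≤ C := by
    intro z
    by_cases hz : z ∈ Ω
    · simp only [e]
      rw [Set.indicator_of_mem hz, norm_div, div_le_iff₀ (norm_pos_iff.2 (hne z hz))]
      exact hC z hz
    · simp only [e]
      rw [Set.indicator_of_notMem hz, div_zero, norm_zero]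
      exact hC0
  have heΩ : ∀ z ∈ Ω, db (fderiv ℝ F z) = e z * F z := by
    intro z hz
    simp only [e]
    rw [Set.indicator_of_mem hz, div_mul_cancel₀ _ (hne z hz)]
  obtain ⟨R, hR⟩ : ∃ R : ℝ, ∀ z, R < ‖z‖ → e z = 0 := by
    obtain ⟨R, hR⟩ := hb.subset_closedBall 0
    refine ⟨R, fun z hz => ?_⟩
    have : z ∉ Ω := fun h => by
      have := hR h
      simp at this
      linarith
    simp only [e]
    rw [Set.indicator_of_notMem this, div_zero]
  have hei : Integrable e := by
    have h1 : IntegrableOn (fun _ : ℂ => C) (closedBall 0 R) :=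
      integrableOn_const (by exact (isCompact_closedBall _ _).measure_lt_top.ne)
    have h2 : IntegrableOn e (closedBall 0 R) := by
      refine Integrable.mono' h1 hem.aestronglyMeasurable ?_
      exact Eventually.of_forall heC
    rw [← integrableOn_univ]
    refine h2.of_forall_sdiff_eq_zero MeasurableSet.univ ?_
    rintro x ⟨_, hx⟩
    apply hR
    simpa using hx
  -- approximations
  let T : (ℂ → ℂ) → ℂ → ℂ := fun h z => ∫ w, S w * h (z - w)
  choose φ hφ1 hφ2 hφ3 hφ4 hφ5 using fun n : ℕ =>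
    approx hem heC hR (ε := 1 / ((n:ℝ) + 1)) (by positivity)
  have hTint : ∀ n z, Integrable (fun w => S w * φ n (z - w)) := fun n z =>
    integrable_conv (hφ1 n).continuous.measurable (hφ3 n)
      ((hφ1 n).continuous.integrable_of_hasCompactSupport (hφ2 n)) z
  have hTinte : ∀ z, Integrable (fun w => S w * e (z - w)) := fun z =>
    integrable_conv hem heC hei z
  have hunif : ∀ ε > 0, ∀ᶠ n in atTop, ∀ z, ‖T (φ n) z - T e z‖ < ε := by
    intro ε hε
    set δ := ε / (4 * (C + 1)) with hδdef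
    have hδ : 0 < δ := by positivity
    have h1 : Tendsto (fun n : ℕ => (2 * Real.pi * δ)⁻¹ * (1 / ((n:ℝ) + 1))) atTop (𝓝 0) := by
      simpa using (tendsto_one_div_add_atTop_nhds_zero_nat (𝕜 := ℝ)).const_mul ((2 * Real.pi * δ)⁻¹)
    filter_upwards [h1.eventually (gt_mem_nhds (half_pos hε))] with n hn z
    have h2 : T (φ n) z - T e z = ∫ w, S w * (fun u => φ n u - e u) (z - w) := by
      simp only [T]
      rw [← integral_sub (hTint n z) (hTinte z)]
      congr 1
      ext w
      ring
    rw [h2]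
    refine (conv_bound (M := 2 * C) (fun u => ?_) (hφ4 n) hδ z).trans_lt ?_
    · refine (norm_sub_le _ _).trans ?_
      linarith [hφ3 n u, heC u]
    · have h3 : 2 * C * δ ≤ ε / 2 := by
        rw [hδdef]
        rw [mul_div_assoc', div_le_div_iff₀ (by positivity) (by positivity)]
        nlinarith
      have h4 : (2 * Real.pi * δ)⁻¹ * ∫ w, ‖φ n w - e w‖ ≤ (2 * Real.pi * δ)⁻¹ * (1 / ((n:ℝ) + 1)) := by
        have := (hφ5 n).le
        have h5 : 0 < (2 * Real.pi * δ)⁻¹ := by
          have := Real.pi_pos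
          positivity
        exact mul_le_mul_of_nonneg_left this h5.le
      linarith
  have hTd : ∀ n z, ∃ L : ℂ →L[ℝ] ℂ, HasFDerivAt (T (φ n)) L z ∧ db L = φ n z := fun n z =>
    exists_fderiv_conv (hφ1 n) (hφ2 n) z
  have hTc : ∀ n, Continuous (T (φ n)) := fun n => by
    rw [continuous_iff_continuousAt]
    intro z
    obtain ⟨L, hL, _⟩ := hTd n z
    exact hL.continuousAt
  have hTec : Continuous (T e) := by
    have htu : TendstoUniformly (fun n => T (φ n)) (T e) atTop := by
      rw [Metric.tendstoUniformly_iff]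
      intro ε hε
      filter_upwards [hunif ε hε] with n hn z
      rw [dist_comm, dist_eq_norm]
      exact hn z
    exact htu.continuous (Frequently.of_forall hTc)
  -- uniform bounds
  obtain ⟨V, hV0, hVe, hVn⟩ : ∃ V : ℝ, 0 ≤ V ∧ (∀ z, ‖T e z‖ ≤ V) ∧ (∀ᶠ n in atTop, ∀ z, ‖T (φ n) z‖ ≤ V) := by
    have h1 : ∀ z, ‖T e z‖ ≤ C * 1 + (2 * Real.pi * 1)⁻¹ * ∫ w, ‖e w‖ := fun z =>
      conv_bound heC hei one_pos z
    refine ⟨C * 1 + (2 * Real.pi * 1)⁻¹ * (∫ w, ‖e w‖) + 1, ?_, fun z => ?_, ?_⟩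
    · have := (norm_nonneg _).trans (h1 0)
      linarith
    · linarith [h1 z]
    · filter_upwards [hunif 1 one_pos] with n hn z
      have h2 := hn z
      have h3 : ‖T (φ n) z‖ ≤ ‖T (φ n) z - T e z‖ + ‖T e z‖ := by
        simpa using norm_add_le (T (φ n) z - T e z) (T e z)
      linarith [h1 z]
  refine ⟨T e, ⟨V, hVe⟩, ?_⟩
  let g : ℂ → ℂ := fun z => F z * exp (-T e z)
  have hgc : ContinuousOn g Ω := hFc.mul (by fun_prop)
  refine (isConservativeOn_and_continuousOn_iff_isDifferentiableOn hΩ).1 ⟨?_, hgc⟩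
  intro z w hzw
  rw [← add_eq_zero_iff_eq_neg, wedgeIntegral_add_wedgeIntegral_eq]
  set K : Set ℂ := Rectangle z w with hKdef
  have hKc : IsCompact K := by
    rw [hKdef]
    exact isCompact_uIcc.reProdIm isCompact_uIcc
  obtain ⟨BF, hBF⟩ := hKc.exists_bound_of_continuousOn (hFc.mono hzw)
  have hBF0 : 0 ≤ BF := (norm_nonneg _).trans (hBF z (by rw [hKdef]; exact ⟨left_mem_uIcc, left_mem_uIcc⟩))
  obtain ⟨n0, hn0⟩ := hVn.exists_forall_of_atTop
  -- the approximating functions
  let gn : ℕ → ℂ → ℂ := fun n z => F z * exp (-T (φ (n + n0)) z)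
  have hVn' : ∀ n z, ‖T (φ (n + n0)) z‖ ≤ V := fun n z => hn0 _ (Nat.le_add_left _ _) z
  have hexp : ∀ n z, ‖exp (-T (φ (n + n0)) z)‖ ≤ Real.exp V := by
    intro n z
    rw [Complex.norm_exp]
    apply Real.exp_le_exp.2
    have := (abs_re_le_norm (-T (φ (n + n0)) z))
    rw [norm_neg] at this
    exact (le_abs_self _).trans (this.trans (hVn' n z))
  have hgnc : ∀ n, ContinuousOn (gn n) K := by
    intro n
    have := hTc (n + n0)
    exact (hFc.mono hzw).mul (by fun_prop)
  have hgnb : ∀ n, ∀ z ∈ K, ‖gn n z‖ ≤ BF * Real.exp V := by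
    intro n z hz
    simp only [gn]
    rw [norm_mul]
    exact mul_le_mul (hBF z hz) (hexp n z) (norm_nonneg _) hBF0
  have htT : ∀ z, Tendsto (fun n => T (φ (n + n0)) z) atTop (𝓝 (T e z)) := by
    intro z
    rw [Metric.tendsto_atTop]
    intro ε hε
    obtain ⟨N, hN⟩ := (hunif ε hε).exists_forall_of_atTop
    refine ⟨N, fun n hn => ?_⟩
    rw [dist_eq_norm]
    exact hN (n + n0) (by omega) z
  have htg : ∀ z ∈ K, Tendsto (fun n => gn n z) atTop (𝓝 (g z)) := by
    intro z _
    exact ((htT z).neg.cexp).const_mul (F z)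
  -- the derivative of `gn`
  have hder : ∀ n, ∀ ζ ∈ Ω, ∃ L : ℂ →L[ℝ] ℂ, HasFDerivAt (gn n) L ζ ∧
      db L = exp (-T (φ (n + n0)) ζ) * F ζ * (e ζ - φ (n + n0) ζ) := by
    intro n ζ hζ
    obtain ⟨L, hL, hL'⟩ := hTd (n + n0) ζ
    have h1 : HasFDerivAt F (fderiv ℝ F ζ) ζ := (hF ζ hζ).hasFDerivAt
    have h2 : HasFDerivAt (fun ζ => exp (-T (φ (n + n0)) ζ)) (exp (-T (φ (n + n0)) ζ) • (-L)) ζ :=
      hL.neg.cexp
    refine ⟨_, h1.mul h2, ?_⟩
    unfold db at *
    have h3 := heΩ ζ hζ
    simp only [add_apply, smul_apply, neg_apply, smul_eq_mul]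
    linear_combination (exp (-T (φ (n + n0)) ζ)) * h3 - exp (-T (φ (n + n0)) ζ) * F ζ * hL'
  -- integrals over the boundary tend to those of `g`
  let W : (ℂ → ℂ) → ℂ := fun f => (∫ x : ℝ in z.re..w.re, f (x + z.im * I)) -
      (∫ x : ℝ in z.re..w.re, f (x + w.im * I)) +
      I • (∫ y : ℝ in z.im..w.im, f (w.re + y * I)) -
      I • (∫ y : ℝ in z.im..w.im, f (z.re + y * I))
  have hW1 : Tendsto (fun n => W (gn n)) atTop (𝓝 (W g)) := by
    have memK : ∀ x y : ℝ, x ∈ [[z.re, w.re]] → y ∈ [[z.im, w.im]] → (x + y * I : ℂ) ∈ K := by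
      intro x y hx hy
      rw [hKdef]
      refine ⟨?_, ?_⟩
      · simpa using hx
      · simpa using hy
    have t1 := tendsto_path hgnc hgnb htg (a := z.re) (b := w.re) (γ := fun x : ℝ => x + z.im * I)
      (by fun_prop) (fun x hx => memK x z.im hx left_mem_uIcc)
    have t2 := tendsto_path hgnc hgnb htg (a := z.re) (b := w.re) (γ := fun x : ℝ => x + w.im * I)
      (by fun_prop) (fun x hx => memK x w.im hx right_mem_uIcc)
    have t3 := tendsto_path hgnc hgnb htg (a := z.im) (b := w.im) (γ := fun y : ℝ => w.re + y * I)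
      (by fun_prop) (fun x hx => memK w.re x right_mem_uIcc hx)
    have t4 := tendsto_path hgnc hgnb htg (a := z.im) (b := w.im) (γ := fun y : ℝ => z.re + y * I)
      (by fun_prop) (fun x hx => memK z.re x left_mem_uIcc hx)
    exact ((t1.sub t2).add (t3.const_smul I)).sub (t4.const_smul I)
  have hW2 : ∀ n, ‖W (gn n)‖ ≤ BF * Real.exp V * (1 / ((n:ℝ) + 1)) := by
    intro n
    choose! L hL1 hL2 using hder n
    let h : ℂ → ℂ := K.indicator (fun ζ => exp (-T (φ (n + n0)) ζ) * F ζ * (e ζ - φ (n + n0) ζ))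
    have hbound : ∀ ζ, ‖h ζ‖ ≤ BF * Real.exp V * ‖φ (n + n0) ζ - e ζ‖ := by
      intro ζ
      by_cases hζ : ζ ∈ K
      · simp only [h]
        rw [Set.indicator_of_mem hζ, norm_mul, norm_mul, norm_sub_rev (e ζ), mul_comm BF]
        gcongr
        · exact hexp n ζ
        · exact hBF ζ hζ
      · simp only [h]
        rw [Set.indicator_of_notMem hζ, norm_zero]
        positivity
    have hmeas : AEStronglyMeasurable h := by
      have hTn := hTc (n + n0)
      have hφn := (hφ1 (n + n0)).continuous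
      have h1 : Measurable (fun ζ => exp (-T (φ (n + n0)) ζ) * Ω.indicator F ζ * (e ζ - φ (n + n0) ζ)) := by
        have h2 : Measurable (fun ζ => exp (-T (φ (n + n0)) ζ)) := by
          have : Continuous (fun ζ => exp (-T (φ (n + n0)) ζ)) := by fun_prop
          exact this.measurable
        exact (h2.mul hFm).mul (hem.sub hφn.measurable)
      have h2 : h = K.indicator (fun ζ => exp (-T (φ (n + n0)) ζ) * Ω.indicator F ζ * (e ζ - φ (n + n0) ζ)) := by
        ext ζ
        by_cases hζ : ζ ∈ K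
        · simp only [h]
          rw [Set.indicator_of_mem hζ, Set.indicator_of_mem hζ, Set.indicator_of_mem (hzw hζ)]
        · simp only [h]
          rw [Set.indicator_of_notMem hζ, Set.indicator_of_notMem hζ]
      rw [h2]
      exact (h1.indicator hKc.measurableSet).aestronglyMeasurable
    have hhi : Integrable h := by
      refine Integrable.mono' ((hφ4 (n + n0)).norm.const_mul (BF * Real.exp V)) hmeas ?_
      exact Eventually.of_forall hbound
    have hLh : ∀ ζ ∈ K, I • L ζ 1 - L ζ I = h ζ := by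
      intro ζ hζ
      have := hL2 ζ (hzw hζ)
      simp only [h]
      rw [Set.indicator_of_mem hζ, ← this]
      rfl
    have hrect := integral_boundary_rect_of_hasFDerivAt_real_off_countable (gn n) L z w ∅
      countable_empty (hgnc n) ?_ ?_
    · have hWe : W (gn n) = ∫ x : ℝ in z.re..w.re, ∫ y : ℝ in z.im..w.im, h (x + y * I) := by
        simp only [W]
        rw [hrect]
        apply intervalIntegral.integral_congr
        intro x hx
        apply intervalIntegral.integral_congr
        intro y hy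
        apply hLh
        rw [hKdef]
        refine ⟨?_, ?_⟩
        · simpa using hx
        · simpa using hy
      rw [hWe]
      refine (norm_iter_le hhi _ _ _ _).trans ?_
      calc ∫ z, ‖h z‖ ≤ ∫ ζ, BF * Real.exp V * ‖φ (n + n0) ζ - e ζ‖ := by
            refine integral_mono hhi.norm ((hφ4 (n + n0)).norm.const_mul _) hbound
        _ = BF * Real.exp V * ∫ ζ, ‖φ (n + n0) ζ - e ζ‖ := integral_const_mul _ _
        _ ≤ BF * Real.exp V * (1 / ((n:ℝ) + 1)) := by
            gcongr
            refine (hφ5 (n + n0)).le.trans ?_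
            apply one_div_le_one_div_of_le (by positivity)
            push_cast
            have : (0:ℝ) ≤ n0 := n0.cast_nonneg
            linarith
    · rintro x ⟨hx, _⟩
      apply hL1
      apply hzw
      rw [hKdef]
      refine ⟨?_, ?_⟩
      · exact ⟨hx.1.1.le, hx.1.2.le⟩
      · exact ⟨hx.2.1.le, hx.2.2.le⟩
    · have h1 : IntegrableOn h K := hhi.integrableOn
      exact h1.congr_fun (fun ζ hζ => (hLh ζ hζ).symm) hKc.measurableSet
  have hlim : Tendsto (fun n => W (gn n)) atTop (𝓝 0) := by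
    refine squeeze_zero_norm hW2 ?_
    simpa using (tendsto_one_div_add_atTop_nhds_zero_nat (𝕜 := ℝ)).const_mul (BF * Real.exp V)
  exact tendsto_nhds_unique hW1 hlim

end

end MP8a09
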