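import Mathlib

open MeasureTheory Metric Set Filter Topology Complex

namespace MP8a09

noncomputable section

/-- Given a `1`-Lipschitz `ρ : ℂ → [0,1]`, there is a function `t`, real differentiable off `{ρ = 0}`,
with `c ρ⁴ ≤ t ≤ C ρ²` and `‖∇t‖ ≤ C ρ`. -/
theorem exists_reg {ρ : ℂ → ℝ} (h0 : ∀ z, 0 ≤ ρ z)
    (hL : ∀ z w, |ρ z - ρ w| ≤ ‖z - w‖) (R : ℝ) (hR : 0 < R) (h1 : ∀ z, ρ z ≤ 1) :
    ∃ t : ℂ → ℝ, ∃ c > 0, ∃ C > 0, ∀ z, ‖z‖ ≤ R → 0 < ρ z →
      DifferentiableAt ℝ t z ∧ c * ρ z ^ 4 ≤ t z ∧ t z ≤ C * ρ z ^ 2 ∧ ‖fderiv ℝ t z‖ ≤ C * ρ z := by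
  have hρc : Continuous ρ := by
    have : LipschitzWith 1 ρ := LipschitzWith.of_dist_le_mul fun z w => by
      rw [Real.dist_eq, dist_eq_norm, NNReal.coe_one, one_mul]
      exact hL z w
    exact this.continuous
  set μ : Measure ℂ := volume.restrict (ball 0 (R + 1)) with hμ
  have : IsFiniteMeasure μ := by
    rw [hμ]
    exact isFiniteMeasure_restrict.2 measure_ball_lt_top.ne
  let q : ℂ → ℂ → ℝ := fun z w => ‖z - w‖ ^ 2 + ρ w ^ 2
  let F : ℂ → ℂ → ℝ := fun z w => (q z w ^ 2)⁻¹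
  let q' : ℂ → ℂ → ℂ →L[ℝ] ℝ := fun z w => 2 • (innerSL ℝ (z - w))
  let F' : ℂ → ℂ → ℂ →L[ℝ] ℝ := fun z w => (-((q z w ^ 2) ^ 2)⁻¹ * (2 * q z w)) • q' z w
  have hqc : ∀ z, Continuous (q z) := fun z => by
    simp only [q]; fun_prop
  have hq_low : ∀ z w, ρ z ^ 2 / 2 ≤ q z w := by
    intro z w
    have h2 := (abs_le.1 (hL z w)).2
    have h3 : ρ z ≤ ρ w + ‖z - w‖ := by linarith
    have h4 : ρ z ^ 2 ≤ (ρ w + ‖z - w‖) ^ 2 := pow_le_pow_left₀ (h0 z) h3 2
    simp only [q]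
    nlinarith [sq_nonneg (ρ w - ‖z - w‖)]
  have hq_pos : ∀ z w, 0 < ρ z → 0 < q z w := fun z w hz =>
    lt_of_lt_of_le (by positivity) (hq_low z w)
  have hq' : ∀ z w, HasFDerivAt (fun z => q z w) (q' z w) z := by
    intro z w
    have h2 : HasFDerivAt (fun z : ℂ => z - w) (ContinuousLinearMap.id ℝ ℂ) z :=
      (hasFDerivAt_id z).sub_const w
    have h3 := h2.norm_sq
    have h4 := h3.add_const (ρ w ^ 2)
    refine h4.congr_fderiv ?_
    ext v
    simp [q']
  have hF' : ∀ z w, 0 < ρ z → HasFDerivAt (fun z => F z w) (F' z w) z := by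
    intro z w hz
    have h2 : HasDerivAt (fun x : ℝ => (x ^ 2)⁻¹) (-((q z w ^ 2) ^ 2)⁻¹ * (2 * q z w)) (q z w) := by
      have h3 : HasDerivAt (fun x : ℝ => x ^ 2) (2 * q z w) (q z w) := by
        simpa using hasDerivAt_pow 2 (q z w)
      have h4 := h3.fun_inv (pow_ne_zero 2 (hq_pos z w hz).ne')
      refine h4.congr_deriv ?_
      ring
    exact HasDerivAt.comp_hasFDerivAt (h₂ := fun x : ℝ => (x ^ 2)⁻¹) z h2 (hq' z w)
  have hF_nonneg : ∀ z w, 0 ≤ F z w := fun z w => by simp only [F]; positivity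
  have hF_up : ∀ z w, 0 < ρ z → F z w ≤ 4 / ρ z ^ 4 := by
    intro z w hz
    simp only [F]
    have h2 : (ρ z ^ 2 / 2) ^ 2 ≤ q z w ^ 2 := pow_le_pow_left₀ (by positivity) (hq_low z w) 2
    have h3 := inv_anti₀ (by positivity) h2
    refine h3.trans (le_of_eq ?_)
    field_simp
    norm_num
  have hF'_norm : ∀ z w, 0 < ρ z → ‖F' z w‖ ≤ 8 / ρ z * F z w := by
    intro z w hz
    have hqp := hq_pos z w hz
    have h2 : ‖q' z w‖ ≤ 2 * ‖z - w‖ := by
      simp only [q']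
      rw [two_smul]
      refine (norm_add_le _ _).trans ?_
      rw [innerSL_apply_norm]
      linarith
    have h3 : ‖z - w‖ * ρ z ≤ 2 * q z w := by
      have h4 := (abs_le.1 (hL z w)).2
      have h5 : ρ z ≤ ρ w + ‖z - w‖ := by linarith
      have h6 : ‖z - w‖ * ρ z ≤ ‖z - w‖ * (ρ w + ‖z - w‖) := by
        gcongr
      simp only [q]
      nlinarith [sq_nonneg (ρ w - ‖z - w‖), sq_nonneg ‖z - w‖, sq_nonneg (ρ w)]
    simp only [F']
    rw [norm_smul, Real.norm_eq_abs]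
    have h7 : |(-((q z w ^ 2) ^ 2)⁻¹ * (2 * q z w))| = 2 * (q z w ^ 3)⁻¹ := by
      rw [neg_mul, abs_neg, abs_of_pos (by positivity)]
      field_simp
    rw [h7]
    calc 2 * (q z w ^ 3)⁻¹ * ‖q' z w‖ ≤ 2 * (q z w ^ 3)⁻¹ * (2 * ‖z - w‖) := by gcongr
      _ ≤ 8 / ρ z * F z w := by
        simp only [F]
        rw [div_mul_eq_mul_div, le_div_iff₀ hz]
        have h8 : 2 * (q z w ^ 3)⁻¹ * (2 * ‖z - w‖) * ρ z = 4 * (q z w ^ 3)⁻¹ * (‖z - w‖ * ρ z) := by ring
        rw [h8]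
        calc 4 * (q z w ^ 3)⁻¹ * (‖z - w‖ * ρ z) ≤ 4 * (q z w ^ 3)⁻¹ * (2 * q z w) := by gcongr
          _ = 8 * (q z w ^ 2)⁻¹ := by field_simp; norm_num
  have hFc : ∀ z, 0 < ρ z → Continuous (F z) := by
    intro z hz
    simp only [F]
    exact ((hqc z).pow 2).inv₀ (fun w => pow_ne_zero 2 (hq_pos z w hz).ne')
  have hFi : ∀ z, 0 < ρ z → Integrable (F z) μ := by
    intro z hz
    refine Integrable.mono' (g := fun _ => 4 / ρ z ^ 4) (integrable_const _) (hFc z hz).aestronglyMeasurable ?_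
    exact Eventually.of_forall fun w => by
      rw [Real.norm_of_nonneg (hF_nonneg z w)]
      exact hF_up z w hz
  have hF'c : ∀ z, 0 < ρ z → Continuous (F' z) := by
    intro z hz
    simp only [F']
    have h2 : Continuous (fun w => (-((q z w ^ 2) ^ 2)⁻¹ * (2 * q z w))) := by
      have h3 : Continuous (fun w => ((q z w ^ 2) ^ 2)⁻¹) :=
        (((hqc z).pow 2).pow 2).inv₀ (fun w => pow_ne_zero 2 (pow_ne_zero 2 (hq_pos z w hz).ne'))
      exact h3.neg.mul ((hqc z).const_mul 2)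
    have h3 : Continuous (q' z) := by
      simp only [q']
      fun_prop
    exact h2.smul h3
  let J : ℂ → ℝ := fun z => ∫ w, F z w ∂μ
  have hJ' : ∀ z, 0 < ρ z → HasFDerivAt J (∫ w, F' z w ∂μ) z := by
    intro z hz
    have hs : ∀ y ∈ ball z (ρ z / 2), ρ z / 2 ≤ ρ y := by
      intro y hy
      rw [mem_ball, dist_eq_norm] at hy
      have := (abs_le.1 (hL y z)).1
      linarith
    refine hasFDerivAt_integral_of_dominated_of_fderiv_le (s := ball z (ρ z / 2))
      (bound := fun _ => 8 / (ρ z / 2) * (4 / (ρ z / 2) ^ 4)) (ball_mem_nhds z (by positivity)) ?_ (hFi z hz) ?_ ?_ ?_ ?_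
    · filter_upwards [ball_mem_nhds z (show 0 < ρ z / 2 by positivity)] with y hy
      exact (hFc y (lt_of_lt_of_le (by positivity) (hs y hy))).aestronglyMeasurable
    · exact (hF'c z hz).aestronglyMeasurable
    · refine Eventually.of_forall fun w y hy => ?_
      have hy' := hs y hy
      have hyp : 0 < ρ y := lt_of_lt_of_le (by positivity) hy'
      refine (hF'_norm y w hyp).trans ?_
      have e1 : 8 / ρ y ≤ 8 / (ρ z / 2) := by gcongr
      have e2 : F y w ≤ 4 / (ρ z / 2) ^ 4 := (hF_up y w hyp).trans (by gcongr)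
      exact mul_le_mul e1 e2 (hF_nonneg y w) (by positivity)
    · exact integrable_const _
    · refine Eventually.of_forall fun w y hy => ?_
      exact hF' y w (lt_of_lt_of_le (by positivity) (hs y hy))
  have hJ'n : ∀ z, 0 < ρ z → ‖∫ w, F' z w ∂μ‖ ≤ 8 / ρ z * J z := by
    intro z hz
    refine (norm_integral_le_of_norm_le ((hFi z hz).const_mul (8 / ρ z)) ?_).trans ?_
    · exact Eventually.of_forall fun w => hF'_norm z w hz
    · rw [integral_const_mul]
  -- the area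
  set A : ℝ := μ.real univ with hA
  have hJup : ∀ z, 0 < ρ z → J z ≤ 4 / ρ z ^ 4 * (A + 1) := by
    intro z hz
    have : J z ≤ ∫ _w, 4 / ρ z ^ 4 ∂μ :=
      integral_mono (hFi z hz) (integrable_const _) (fun w => hF_up z w hz)
    rw [integral_const, smul_eq_mul] at this
    have h5 : 0 ≤ 4 / ρ z ^ 4 := by positivity
    rw [← hA] at this
    nlinarith
  have hJlow : ∀ z, ‖z‖ ≤ R → 0 < ρ z → 1 / 10 / ρ z ^ 2 ≤ J z := by
    intro z hzR hz
    have hsub : ball z (ρ z / 2) ⊆ ball 0 (R + 1) := by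
      apply ball_subset_ball'
      rw [dist_zero_right]
      have := h1 z
      linarith
    have e1 : ∫ w in ball z (ρ z / 2), F z w ≤ J z := by
      refine setIntegral_mono_set ?_ ?_ ?_
      · exact hFi z hz
      · exact Eventually.of_forall fun w => hF_nonneg z w
      · exact hsub.eventuallyLE
    have e2 : ∫ _w in ball z (ρ z / 2), (4 / 25 / ρ z ^ 4 : ℝ) ≤ ∫ w in ball z (ρ z / 2), F z w := by
      refine setIntegral_mono_on ?_ ?_ measurableSet_ball ?_
      · exact integrableOn_const measure_ball_lt_top.ne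
      · exact (hFi z hz).mono_measure (Measure.restrict_mono hsub le_rfl)
      · intro w hw
        rw [mem_ball, dist_comm, dist_eq_norm] at hw
        have h2 := (abs_le.1 (hL z w)).1
        have h3 : ρ w ≤ 3 / 2 * ρ z := by linarith
        have h4 : q z w ≤ 5 / 2 * ρ z ^ 2 := by
          simp only [q]
          have h5 : ‖z - w‖ ^ 2 ≤ (ρ z / 2) ^ 2 := pow_le_pow_left₀ (norm_nonneg _) hw.le 2
          have h6 : ρ w ^ 2 ≤ (3 / 2 * ρ z) ^ 2 := pow_le_pow_left₀ (h0 w) h3 2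
          nlinarith
        simp only [F]
        have h7 : q z w ^ 2 ≤ (5 / 2 * ρ z ^ 2) ^ 2 := pow_le_pow_left₀ (hq_pos z w hz).le h4 2
        have h8 := inv_anti₀ (pow_pos (hq_pos z w hz) 2) h7
        refine le_trans (le_of_eq ?_) h8
        field_simp
        norm_num
    rw [setIntegral_const, smul_eq_mul] at e2
    have e3 : (volume : Measure ℂ).real (ball z (ρ z / 2)) = Real.pi * (ρ z / 2) ^ 2 := by
      simp [Measure.real, Complex.volume_ball]
      rw [ENNReal.toReal_ofReal (by positivity)]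
      ring
    rw [e3] at e2
    have e4 : 1 / 10 / ρ z ^ 2 ≤ Real.pi * (ρ z / 2) ^ 2 * (4 / 25 / ρ z ^ 4) := by
      have e5 : Real.pi * (ρ z / 2) ^ 2 * (4 / 25 / ρ z ^ 4) = Real.pi / 25 / ρ z ^ 2 := by
        field_simp
        norm_num
      rw [e5]
      have := Real.pi_gt_three
      have e6 : (1 / 10 : ℝ) ≤ Real.pi / 25 := by linarith
      gcongr
    linarith
  have hA0 : 0 ≤ A := measureReal_nonneg
  refine ⟨fun z => (J z)⁻¹, 1 / (4 * (A + 1)), by positivity, 80, by norm_num, fun z hzR hz => ?_⟩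
  have hl := hJlow z hzR hz
  have hJpos : 0 < J z := lt_of_lt_of_le (by positivity) hl
  have hd : HasFDerivAt (fun z => (J z)⁻¹) ((-(J z ^ 2)⁻¹) • (∫ w, F' z w ∂μ)) z := by
    have h2 : HasDerivAt (fun x : ℝ => x⁻¹) (-(J z ^ 2)⁻¹) (J z) := hasDerivAt_inv hJpos.ne'
    exact h2.comp_hasFDerivAt z (hJ' z hz)
  have hup2 : (J z)⁻¹ ≤ 10 * ρ z ^ 2 := by
    have := inv_anti₀ (by positivity) hl
    refine this.trans (le_of_eq ?_)
    field_simp
  refine ⟨hd.differentiableAt, ?_, ?_, ?_⟩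
  · have h2 := hJup z hz
    have h3 := inv_anti₀ hJpos h2
    refine le_trans (le_of_eq ?_) h3
    field_simp
  · refine hup2.trans ?_
    have : 0 ≤ ρ z ^ 2 := by positivity
    linarith
  · rw [hd.fderiv, norm_smul, norm_neg, Real.norm_of_nonneg (by positivity)]
    calc (J z ^ 2)⁻¹ * ‖∫ w, F' z w ∂μ‖ ≤ (J z ^ 2)⁻¹ * (8 / ρ z * J z) := by
          gcongr
          exact hJ'n z hz
      _ = 8 / ρ z * (J z)⁻¹ := by field_simp
      _ ≤ 8 / ρ z * (10 * ρ z ^ 2) := by gcongr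
      _ = 80 * ρ z := by field_simp; norm_num

end

end MP8a09
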