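import Pool.Agent.Helper897.ZS.Lip
import Pool.Agent.Helper897.ZS.Reg
import Pool.Agent.Helper897.ZS.Dbar5

open Metric Set Filter Topology Complex
open scoped NNReal ContDiff

namespace MP8a09

noncomputable section

lemma exists_rho {G : Set ℂ} (hb : Bornology.IsBounded G) (hne : G.Nonempty) {f : ℂ → ℂ}
    (hc : ContinuousOn f (closure G)) {L : ℝ} (hL1 : 1 ≤ L) (hLb : ∀ z ∈ closure G, ‖f z‖ ≤ L)
    (hLl : ∀ z ∈ closure G, ∀ w ∈ closure G, ‖f z - f w‖ ≤ L * ‖z - w‖) :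
    ∃ ρ : ℂ → ℝ, (∀ z, 0 ≤ ρ z) ∧ (∀ z, ρ z ≤ 1) ∧ (∀ z w, |ρ z - ρ w| ≤ ‖z - w‖) ∧
      (∀ z ∈ closure G, ρ z ≤ ‖f z‖) ∧ (∀ z ∈ closure G, ‖f z‖ ≤ 2 * L * ρ z) := by
  set Γ : Set (ℂ × ℂ) := (fun w => (w, f w)) '' closure G with hΓ
  have hΓc : IsCompact Γ := hb.isCompact_closure.image_of_continuousOn (by fun_prop)
  have hΓne : Γ.Nonempty := (hne.mono subset_closure).image _
  refine ⟨fun z => min 1 (infDist (z, (0:ℂ)) Γ), fun z => le_min zero_le_one infDist_nonneg,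
    fun z => min_le_left _ _, fun z w => ?_, fun z hz => ?_, fun z hz => ?_⟩
  · refine (abs_min_sub_min_le_max _ _ _ _).trans ?_
    rw [sub_self, abs_zero]
    refine max_le (norm_nonneg _) ?_
    have hd : dist (z, (0:ℂ)) (w, (0:ℂ)) = ‖z - w‖ := by
      rw [Prod.dist_eq, dist_self, dist_eq_norm, max_eq_left (norm_nonneg _)]
    rw [abs_sub_le_iff]
    constructor
    · have := infDist_le_infDist_add_dist (s := Γ) (x := (z, (0:ℂ))) (y := (w, (0:ℂ)))
      rw [hd] at this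
      linarith
    · have := infDist_le_infDist_add_dist (s := Γ) (x := (w, (0:ℂ))) (y := (z, (0:ℂ)))
      rw [dist_comm, hd] at this
      linarith
  · refine (min_le_right _ _).trans ?_
    refine (infDist_le_dist_of_mem (mem_image_of_mem _ hz)).trans (le_of_eq ?_)
    rw [Prod.dist_eq]
    simp
  · rcases min_cases (1:ℝ) (infDist (z, (0:ℂ)) Γ) with ⟨h1, _⟩ | ⟨h1, _⟩
    · simp only [h1]
      linarith [hLb z hz]
    · simp only [h1]
      obtain ⟨_, ⟨w, hw, rfl⟩, hwd⟩ := hΓc.exists_infDist_eq_dist hΓne (z, (0:ℂ))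
      rw [hwd, Prod.dist_eq]
      simp only
      have e1 : ‖z - w‖ ≤ max (dist z w) (dist 0 (f w)) := by
        rw [← dist_eq_norm]; exact le_max_left _ _
      have e2 : ‖f w‖ ≤ max (dist z w) (dist 0 (f w)) := by
        rw [← dist_zero_left]; exact le_max_right _ _
      have e3 := hLl z hz w hw
      have e4 : ‖f z‖ ≤ ‖f z - f w‖ + ‖f w‖ := by
        simpa using norm_add_le (f z - f w) (f w)
      have e5 : 0 ≤ max (dist z w) (dist 0 (f w)) := (norm_nonneg _).trans e2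
      nlinarith

lemma db_id : db (ContinuousLinearMap.id ℝ ℂ) = 0 := by
  simp [db]

lemma norm_db_le (B : ℂ →L[ℝ] ℂ) : ‖db B‖ ≤ 2 * ‖B‖ := by
  unfold db
  refine (norm_sub_le _ _).trans ?_
  rw [norm_mul, Complex.norm_I, one_mul]
  have h1 := B.le_opNorm 1
  have h2 := B.le_opNorm I
  rw [norm_one, mul_one] at h1
  rw [Complex.norm_I, mul_one] at h2
  linarith

lemma db_add (A B : ℂ →L[ℝ] ℂ) : db (A + B) = db A + db B := by
  unfold db
  simp only [add_apply]
  ring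

set_option maxHeartbeats 1000000 in
theorem exists_g {G : Set ℂ} (hG : IsLipschitzDomain G) {f : ℂ → ℂ} {γ : ℕ} (hγ : 1 ≤ γ)
    (hf : SmoothClass G γ f) :
    ∃ (ρ : ℂ → ℝ) (g : ℂ → ℂ) (κ₁ a b : ℝ), 0 < κ₁ ∧ κ₁ ≤ 1 / 8 ∧ 0 < a ∧ 0 < b ∧
      (∀ z, 0 ≤ ρ z) ∧ (∀ z, ρ z ≤ 1) ∧ (∀ z w, |ρ z - ρ w| ≤ ‖z - w‖) ∧
      (∀ z ∈ closure G, (ρ z = 0 ↔ f z = 0)) ∧
      DifferentiableOn ℂ g {z | infDist z (closure G) < κ₁ * ρ z ^ 4} ∧
      ∀ z, infDist z (closure G) < κ₁ * ρ z ^ 4 → a * ρ z ≤ ‖g z‖ ∧ ‖g z‖ ≤ b * ρ z := by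
  have hG' := hG
  obtain ⟨hb, ho, hconn, -⟩ := hG'
  obtain ⟨hfd, hfu, hfc⟩ := hf
  have hne : G.Nonempty := hconn.nonempty
  have hclne : (closure G).Nonempty := hne.mono subset_closure
  have hcomp : IsCompact (closure G) := hb.isCompact_closure
  obtain ⟨τ, hτ, c, hc, t₀, ht₀, hball⟩ := exists_field hG
  obtain ⟨R₀, hR₀⟩ := hcomp.isBounded.subset_closedBall 0
  have hR₀' : ∀ z ∈ closure G, ‖z‖ ≤ R₀ := fun z hz => by simpa using hR₀ hz
  have hR₀0 : 0 ≤ R₀ := by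
    obtain ⟨z, hz⟩ := hclne
    exact (norm_nonneg _).trans (hR₀' z hz)
  set R : ℝ := R₀ + 1 with hR
  obtain ⟨T, hT, hT1, hT2, hT3⟩ := field_bounds hτ R
  have hclR : ∀ z ∈ closure G, ‖z‖ ≤ R := fun z hz => by linarith [hR₀' z hz]
  obtain ⟨δ, hδ, A, hA, hlip⟩ := local_lip hc ht₀ hT hball
    (fun z hz => hT1 z (hclR z (subset_closure hz)))
    (fun z hz w hw => hT3 z w (hclR z (subset_closure hz)) (hclR w (subset_closure hw)))
  obtain ⟨M, hM0, hM⟩ := deriv_bounded ho hb hδ hlip hA hfd hγ hfu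
  obtain ⟨L, hL1, hLb, hLl⟩ := lip_closure hb hfc hδ
    (hlip f M hM0 (fun z hz => (hfd z hz).differentiableAt (ho.mem_nhds hz)) hM)
  obtain ⟨ρ, hρ0, hρ1, hρL, hρf, hfρ⟩ := exists_rho hb hne hfc hL1 hLb hLl
  obtain ⟨t, c₁, hc₁, C₁, hC₁, ht⟩ := exists_reg hρ0 hρL R (by positivity) hρ1
  -- constants
  have hL0 : 0 < L := by linarith
  obtain ⟨κ, hκ, hκ1, hκ2⟩ : ∃ κ > 0, κ * C₁ ≤ t₀ ∧ κ * C₁ * T * L ≤ 1 / 8 := by
    refine ⟨min (t₀ / C₁) (1 / (8 * C₁ * T * L)), by positivity, ?_, ?_⟩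
    · calc min (t₀ / C₁) (1 / (8 * C₁ * T * L)) * C₁ ≤ t₀ / C₁ * C₁ := by
            gcongr; exact min_le_left _ _
        _ = t₀ := by field_simp
    · calc min (t₀ / C₁) (1 / (8 * C₁ * T * L)) * C₁ * T * L ≤ (1 / (8 * C₁ * T * L)) * C₁ * T * L := by
            gcongr; exact min_le_right _ _
        _ = 1 / 8 := by field_simp
  obtain ⟨κ₁, hκ₁, hκ₁1, hκ₁2, hκ₁3, hκ₁4⟩ : ∃ κ₁ > 0, κ₁ ≤ 1 / 8 ∧ κ₁ * L ≤ 1 / 8 ∧ κ₁ * T ≤ c / 2 ∧
      κ₁ ≤ c * κ * c₁ / 2 := by
    refine ⟨min (min (1 / 8) (1 / (8 * L))) (min (c / (2 * T)) (c * κ * c₁ / 2)), by positivity,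
      (min_le_left _ _).trans (min_le_left _ _), ?_, ?_, (min_le_right _ _).trans (min_le_right _ _)⟩
    · calc min (min (1 / 8) (1 / (8 * L))) (min (c / (2 * T)) (c * κ * c₁ / 2)) * L ≤ 1 / (8 * L) * L := by
            gcongr; exact (min_le_left _ _).trans (min_le_right _ _)
        _ = 1 / 8 := by field_simp
    · calc min (min (1 / 8) (1 / (8 * L))) (min (c / (2 * T)) (c * κ * c₁ / 2)) * T ≤ c / (2 * T) * T := by
            gcongr; exact (min_le_right _ _).trans (min_le_left _ _)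
        _ = c / 2 := by field_simp
  set Ω : Set ℂ := {z | infDist z (closure G) < κ₁ * ρ z ^ 4} with hΩdef
  have hρc : Continuous ρ := by
    have : LipschitzWith 1 ρ := LipschitzWith.of_dist_le_mul fun z w => by
      rw [Real.dist_eq, dist_eq_norm, NNReal.coe_one, one_mul]
      exact hρL z w
    exact this.continuous
  have hΩo : IsOpen Ω := isOpen_lt (continuous_infDist_pt _) (by fun_prop)
  let W : ℂ → ℂ := fun z => z + (κ * t z) • τ z
  let F : ℂ → ℂ := fun z => f (W z)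
  -- the basic estimates
  have key : ∀ z ∈ Ω, 0 < ρ z ∧ ‖z‖ ≤ R ∧ W z ∈ G ∧ 1 / 2 * ρ z ≤ ‖F z‖ ∧ ‖F z‖ ≤ 4 * L * ρ z := by
    intro z hz
    have hz' : infDist z (closure G) < κ₁ * ρ z ^ 4 := hz
    have hρz : 0 < ρ z := by
      rcases (hρ0 z).eq_or_lt with h | h
      · rw [← h] at hz'
        simp at hz'
        exact absurd hz' (not_lt.2 infDist_nonneg)
      · exact h
    obtain ⟨z₀, hz₀, hd0⟩ := hcomp.exists_infDist_eq_dist hclne z
    rw [hd0, dist_eq_norm] at hz'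
    set d := ‖z - z₀‖ with hd
    have hd00 : 0 ≤ d := norm_nonneg _
    have p1 : ρ z ^ 2 ≤ ρ z := by nlinarith [hρ1 z]
    have p2 : ρ z ^ 4 ≤ ρ z ^ 2 := by
      have : ρ z ^ 4 = ρ z ^ 2 * ρ z ^ 2 := by ring
      rw [this]
      nlinarith [hρ1 z, sq_nonneg (ρ z)]
    have p3 : ρ z ^ 4 ≤ ρ z := p2.trans p1
    have p4 : ρ z ^ 4 ≤ 1 := p3.trans (hρ1 z)
    have p5 : 0 < ρ z ^ 4 := by positivity
    have hzR : ‖z‖ ≤ R := by
      have : ‖z‖ ≤ ‖z - z₀‖ + ‖z₀‖ := by simpa using norm_add_le (z - z₀) z₀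
      have h2 := hR₀' z₀ hz₀
      have h3 : κ₁ * ρ z ^ 4 ≤ 1 := by nlinarith
      linarith
    obtain ⟨-, htl, htu, -⟩ := ht z hzR hρz
    set s := κ * t z with hs
    have hts : 0 < t z := lt_of_lt_of_le (by positivity) htl
    have hs0 : 0 < s := by positivity
    have hsρ : s ≤ κ * C₁ * ρ z ^ 2 := by rw [hs, mul_assoc]; gcongr
    have hst₀ : s ≤ t₀ := by
      refine hsρ.trans ?_
      have : ρ z ^ 2 ≤ 1 := p1.trans (hρ1 z)
      have h2 : 0 < κ * C₁ := by positivity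
      nlinarith
    have hτd : ‖τ z - τ z₀‖ ≤ T * d := hT3 z z₀ hzR (hclR z₀ hz₀)
    have hdκ : d ≤ κ₁ := by nlinarith
    have hWmem : W z ∈ G := by
      apply hball z₀ hz₀ s hs0 hst₀
      rw [mem_ball, dist_eq_norm]
      have e1 : W z - (z₀ + s * τ z₀) = (z - z₀) + s * (τ z - τ z₀) := by
        simp only [W]
        rw [Complex.real_smul]
        ring
      rw [e1]
      refine (norm_add_le _ _).trans_lt ?_
      rw [norm_mul, Complex.norm_real, Real.norm_of_nonneg hs0.le]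
      have e2 : d < c / 2 * s := by
        refine hz'.trans_le ?_
        have : κ₁ * ρ z ^ 4 ≤ c * κ * c₁ / 2 * ρ z ^ 4 := by gcongr
        refine this.trans ?_
        rw [hs]
        have h2 : c * κ * c₁ / 2 * ρ z ^ 4 = c / 2 * (κ * (c₁ * ρ z ^ 4)) := by ring
        rw [h2]
        gcongr
      have e3 : s * ‖τ z - τ z₀‖ ≤ s * (c / 2) := by
        gcongr
        refine hτd.trans ?_
        have : T * d ≤ T * κ₁ := by gcongr
        linarith
      linarith
    have hWz₀ : ‖W z - z₀‖ ≤ d + s * T := by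
      have e1 : W z - z₀ = (z - z₀) + s * τ z := by
        simp only [W]
        rw [Complex.real_smul]
        ring
      rw [e1]
      refine (norm_add_le _ _).trans ?_
      rw [norm_mul, Complex.norm_real, Real.norm_of_nonneg hs0.le]
      have := hT1 z hzR
      gcongr
    have hFf : ‖F z - f z₀‖ ≤ ρ z / 4 := by
      have e1 := hLl (W z) (subset_closure hWmem) z₀ hz₀
      refine e1.trans ?_
      have e2 : L * ‖W z - z₀‖ ≤ L * (d + s * T) := by gcongr
      refine e2.trans ?_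
      have e3 : L * d ≤ 1 / 8 * ρ z := by
        have : L * d ≤ L * (κ₁ * ρ z) := by
          gcongr
          refine hz'.le.trans ?_
          gcongr
        nlinarith
      have e4 : L * (s * T) ≤ 1 / 8 * ρ z := by
        have h5 : L * (s * T) ≤ L * (κ * C₁ * ρ z * T) := by
          gcongr
          refine hsρ.trans ?_
          gcongr
        have h6 : L * (κ * C₁ * ρ z * T) = (κ * C₁ * T * L) * ρ z := by ring
        rw [h6] at h5
        refine h5.trans ?_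
        gcongr
      nlinarith
    have hdρ : d ≤ 1 / 8 * ρ z := by
      refine hz'.le.trans ?_
      have h1 : κ₁ * ρ z ^ 4 ≤ 1 / 8 * ρ z := by gcongr
      exact h1
    have hρd := abs_le.1 (hρL z z₀)
    have hlow := hρf z₀ hz₀
    have hup := hfρ z₀ hz₀
    have n1 : ‖f z₀‖ ≤ ‖F z‖ + ‖F z - f z₀‖ := by
      have := norm_sub_le (F z) (F z - f z₀)
      simpa using this
    have n2 : ‖F z‖ ≤ ‖F z - f z₀‖ + ‖f z₀‖ := by
      simpa using norm_add_le (F z - f z₀) (f z₀)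
    refine ⟨hρz, hzR, hWmem, ?_, ?_⟩
    · linarith [hρd.2]
    · have h5 : 2 * L * ρ z₀ ≤ 2 * L * (9 / 8 * ρ z) := by
        gcongr
        linarith [hρd.1]
      nlinarith
  have hWd : ∀ z ∈ Ω, ∃ B : ℂ →L[ℝ] ℂ, HasFDerivAt W (ContinuousLinearMap.id ℝ ℂ + B) z ∧
      ‖B‖ ≤ 2 * (κ * C₁ * T) * ρ z := by
    intro z hz
    obtain ⟨hρz, hzR, -, -, -⟩ := key z hz
    obtain ⟨htd, htl, htu, htn⟩ := ht z hzR hρz
    have hts : 0 < t z := lt_of_lt_of_le (by positivity) htl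
    have hτd : HasFDerivAt τ (fderiv ℝ τ z) z :=
      (hτ.differentiable (by simp) z).hasFDerivAt
    have h1 : HasFDerivAt (fun z => κ * t z) (κ • fderiv ℝ t z) z := htd.hasFDerivAt.const_mul κ
    have h2 := h1.smul hτd
    refine ⟨_, (hasFDerivAt_id z).add h2, ?_⟩
    refine (norm_add_le _ _).trans ?_
    rw [norm_smul, ContinuousLinearMap.norm_smulRight_apply, norm_smul, Real.norm_of_nonneg (by positivity),
      Real.norm_of_nonneg hκ.le]
    have p1 : ρ z ^ 2 ≤ ρ z := by nlinarith [hρ1 z]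
    have e1 : κ * t z * ‖fderiv ℝ τ z‖ ≤ κ * (C₁ * ρ z) * T := by
      gcongr
      · refine htu.trans ?_
        gcongr
      · exact hT2 z hzR
    have e2 : κ * ‖fderiv ℝ t z‖ * ‖τ z‖ ≤ κ * (C₁ * ρ z) * T := by
      gcongr
      exact hT1 z hzR
    linarith
  have hFd : ∀ z ∈ Ω, ∃ L' : ℂ →L[ℝ] ℂ, HasFDerivAt F L' z ∧ ‖db L'‖ ≤ 8 * (M * κ * C₁ * T) * ‖F z‖ := by
    intro z hz
    obtain ⟨hρz, hzR, hWG, hFl, hFu⟩ := key z hz
    obtain ⟨B, hB, hBn⟩ := hWd z hz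
    have hfd' : HasDerivAt f (deriv f (W z)) (W z) :=
      ((hfd _ hWG).differentiableAt (ho.mem_nhds hWG)).hasDerivAt
    have h1 := (hfd'.hasFDerivAt.restrictScalars ℝ).comp z hB
    refine ⟨_, h1, ?_⟩
    have e1 : ∀ v : ℂ, (((ContinuousLinearMap.toSpanSingleton ℂ (deriv f (W z))).restrictScalars ℝ).comp
        (ContinuousLinearMap.id ℝ ℂ + B)) v = deriv f (W z) * (ContinuousLinearMap.id ℝ ℂ + B) v := by
      intro v
      simp only [ContinuousLinearMap.comp_apply, add_apply, ContinuousLinearMap.coe_restrictScalars',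
        ContinuousLinearMap.toSpanSingleton_apply, smul_eq_mul]
      ring
    have e2 : db (((ContinuousLinearMap.toSpanSingleton ℂ (deriv f (W z))).restrictScalars ℝ).comp
        (ContinuousLinearMap.id ℝ ℂ + B)) = deriv f (W z) * db B := by
      have : db (ContinuousLinearMap.id ℝ ℂ + B) = db B := by rw [db_add, db_id, zero_add]
      rw [← this]
      unfold db
      rw [e1, e1]
      ring
    rw [e2, norm_mul]
    have hMW := hM _ hWG
    calc ‖deriv f (W z)‖ * ‖db B‖ ≤ M * (2 * (2 * (κ * C₁ * T) * ρ z)) := by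
          refine mul_le_mul hMW ((norm_db_le B).trans ?_) (norm_nonneg _) hM0
          linarith
      _ ≤ 8 * (M * κ * C₁ * T) * ‖F z‖ := by
          have h3 : 0 ≤ M * κ * C₁ * T := by positivity
          nlinarith
  have hΩb : Bornology.IsBounded Ω := by
    refine (isBounded_closedBall (x := (0:ℂ)) (r := R)).subset ?_
    intro z hz
    simpa using (key z hz).2.1
  have hF1 : ∀ z ∈ Ω, DifferentiableAt ℝ F z := by
    intro z hz
    obtain ⟨L', hL', -⟩ := hFd z hz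
    exact hL'.differentiableAt
  have hF2 : ∀ z ∈ Ω, F z ≠ 0 := by
    intro z hz h0
    obtain ⟨hρz, hzR, hWG, hFl, hFu⟩ := key z hz
    rw [h0, norm_zero] at hFl
    linarith
  have hC0 : 0 ≤ 8 * (M * κ * C₁ * T) := by positivity
  have hF3 : ∀ z ∈ Ω, ‖db (fderiv ℝ F z)‖ ≤ 8 * (M * κ * C₁ * T) * ‖F z‖ := by
    intro z hz
    obtain ⟨L', hL', hn⟩ := hFd z hz
    rw [hL'.fderiv]
    exact hn
  obtain ⟨v, ⟨V, hV⟩, hv⟩ := dbar_correction hΩo hΩb hF1 hF2 hC0 hF3
  · refine ⟨ρ, fun z => F z * exp (-v z), κ₁, Real.exp (-V) * (1 / 2), Real.exp V * (4 * L), hκ₁, hκ₁1,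
      by positivity, by positivity, hρ0, hρ1, hρL, ?_, hv, ?_⟩
    · intro z hz
      constructor
      · intro h
        have := hfρ z hz
        rw [h, mul_zero] at this
        exact norm_le_zero_iff.1 this
      · intro h
        have := hρf z hz
        rw [h, norm_zero] at this
        exact le_antisymm this (hρ0 z)
    · intro z hz
      obtain ⟨hρz, hzR, hWG, hFl, hFu⟩ := key z hz
      have h1 : ‖exp (-v z)‖ ≤ Real.exp V := by
        rw [Complex.norm_exp]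
        apply Real.exp_le_exp.2
        have := abs_re_le_norm (-v z)
        rw [norm_neg] at this
        exact (le_abs_self _).trans (this.trans (hV z))
      have h2 : Real.exp (-V) ≤ ‖exp (-v z)‖ := by
        rw [Complex.norm_exp]
        apply Real.exp_le_exp.2
        have := abs_re_le_norm (-v z)
        rw [norm_neg] at this
        have h3 := this.trans (hV z)
        linarith [(abs_le.1 h3).1]
      rw [norm_mul]
      constructor
      · calc Real.exp (-V) * (1 / 2) * ρ z = (1 / 2 * ρ z) * Real.exp (-V) := by ring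
          _ ≤ ‖F z‖ * ‖exp (-v z)‖ := by gcongr
      · calc ‖F z‖ * ‖exp (-v z)‖ ≤ (4 * L * ρ z) * Real.exp V := by gcongr
          _ = Real.exp V * (4 * L) * ρ z := by ring

end

end MP8a09
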