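import Mathlib

open MeasureTheory Metric Set Filter Topology Complex
open scoped Convolution ContDiff

namespace MP8a09

noncomputable section

/-- `2i ∂̄` of a function whose real derivative is `L`. -/
def db (L : ℂ →L[ℝ] ℂ) : ℂ := I * L 1 - L I

/-- The kernel `1/(2πi w)`. -/
def S (w : ℂ) : ℂ := (2 * Real.pi * I * w)⁻¹

lemma norm_S (w : ℂ) : ‖S w‖ = (2 * Real.pi)⁻¹ * ‖w‖⁻¹ := by
  unfold S
  rw [norm_inv]
  simp [abs_of_pos Real.pi_pos]
  ring

lemma measurable_S : Measurable S := by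
  unfold S; fun_prop

lemma clm_apply (L : ℂ →L[ℝ] ℂ) (z : ℂ) : L z = z.re * L 1 + z.im * L I := by
  conv_lhs => rw [← re_add_im z]
  have h1 : (z.re : ℂ) = z.re • (1 : ℂ) := by simp
  have h2 : (z.im : ℂ) * I = z.im • I := by simp
  rw [map_add, h2]
  nth_rewrite 1 [h1]
  rw [map_smul, map_smul]
  simp

/-- integrability of `1/|w|` on discs, with value -/
lemma integrable_inv_norm (δ : ℝ) :
    Integrable (fun w : ℂ => (Set.Ioc 0 δ).indicator (fun y : ℝ => y⁻¹) ‖w‖) := by
  rw [integrable_fun_norm_addHaar (μ := (volume : Measure ℂ)) (f := (Set.Ioc 0 δ).indicator (fun y : ℝ => y⁻¹))]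
  have hE : Module.finrank ℝ ℂ - 1 = 1 := by simp [Complex.finrank_real_complex]
  rw [hE]
  have h0 : IntegrableOn ((Set.Ioc 0 δ).indicator (fun _ : ℝ => (1 : ℝ))) (Ioi 0) := by
    refine Integrable.integrableOn ?_
    rw [integrable_indicator_iff measurableSet_Ioc]
    exact integrableOn_const (by simp)
  refine h0.congr_fun ?_ measurableSet_Ioi
  intro y hy
  simp only [Set.indicator, smul_eq_mul, pow_one]
  split_ifs with h
  · have : y ≠ 0 := ne_of_gt hy
    field_simp
  · simp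

lemma integral_inv_norm {δ : ℝ} (hδ : 0 ≤ δ) :
    ∫ w : ℂ, (Set.Ioc 0 δ).indicator (fun y : ℝ => y⁻¹) ‖w‖ = 2 * Real.pi * δ := by
  rw [integral_fun_norm_addHaar (μ := (volume : Measure ℂ)) (f := (Set.Ioc 0 δ).indicator (fun y : ℝ => y⁻¹))]
  have hE : Module.finrank ℝ ℂ - 1 = 1 := by simp [Complex.finrank_real_complex]
  rw [hE]
  have h1 : ∫ y in Ioi (0:ℝ), y ^ 1 • (Set.Ioc 0 δ).indicator (fun y : ℝ => y⁻¹) y
      = ∫ y in Ioi (0:ℝ), (Set.Ioc 0 δ).indicator (fun _ : ℝ => (1 : ℝ)) y := by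
    refine setIntegral_congr_fun measurableSet_Ioi ?_
    intro y hy
    simp only [Set.indicator, smul_eq_mul, pow_one]
    split_ifs with h
    · have : y ≠ 0 := ne_of_gt hy
      field_simp
    · simp
  rw [h1, integral_indicator measurableSet_Ioc]
  rw [Measure.restrict_restrict measurableSet_Ioc]
  have h2 : Set.Ioc 0 δ ∩ Ioi 0 = Set.Ioc 0 δ := by
    ext x
    simp only [Set.mem_inter_iff, Set.mem_Ioc, Set.mem_Ioi]
    tauto
  rw [h2]
  simp [Complex.finrank_real_complex, hδ]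
  have h3 : (volume : Measure ℂ).real (ball 0 1) = Real.pi := by
    simp [Measure.real, Complex.volume_ball]
  rw [h3]; ring

lemma locallyIntegrable_S : LocallyIntegrable S (volume : Measure ℂ) := by
  rw [locallyIntegrable_iff]
  intro K hK
  obtain ⟨R, hR⟩ := hK.isBounded.subset_closedBall 0
  have hK' : IntegrableOn S (closedBall (0:ℂ) R) := by
    have h1 : Integrable (fun w : ℂ => (2 * Real.pi)⁻¹ * (Set.Ioc 0 R).indicator (fun y : ℝ => y⁻¹) ‖w‖) :=
      (integrable_inv_norm R).const_mul _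
    refine Integrable.mono' (h1.integrableOn (s := closedBall 0 R)) measurable_S.aestronglyMeasurable ?_
    rw [ae_restrict_iff' measurableSet_closedBall]
    refine Eventually.of_forall ?_
    intro w hw
    rw [norm_S]
    rcases eq_or_ne w 0 with rfl | h0
    · simp [Set.indicator]
    · have : ‖w‖ ∈ Set.Ioc 0 R := ⟨norm_pos_iff.2 h0, by simpa using hw⟩
      rw [Set.indicator_of_mem this]
  exact hK'.mono_set hR

/-- the uniform estimate for convolutions with the kernel -/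
lemma conv_bound {h : ℂ → ℂ} {M : ℝ} (hM : ∀ z, ‖h z‖ ≤ M)
    (hi : Integrable h) {δ : ℝ} (hδ : 0 < δ) (z : ℂ) :
    ‖∫ w, S w * h (z - w)‖ ≤ M * δ + (2 * Real.pi * δ)⁻¹ * ∫ w, ‖h w‖ := by
  have hM0 : 0 ≤ M := (norm_nonneg _).trans (hM 0)
  have hi' : Integrable (fun w => h (z - w)) := hi.comp_sub_left z
  have e1 : ∫ w, ‖h (z - w)‖ = ∫ w, ‖h w‖ :=
    integral_sub_left_eq_self (fun w => ‖h w‖) volume z
  have hb : Integrable (fun w : ℂ => M * (2 * Real.pi)⁻¹ * (Set.Ioc 0 δ).indicator (fun y : ℝ => y⁻¹) ‖w‖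
      + (2 * Real.pi * δ)⁻¹ * ‖h (z - w)‖) :=
    ((integrable_inv_norm δ).const_mul _).add (hi'.norm.const_mul _)
  have := norm_integral_le_of_norm_le (f := fun w => S w * h (z - w)) hb ?_
  · refine this.trans ?_
    rw [integral_add ((integrable_inv_norm δ).const_mul _) (hi'.norm.const_mul _)]
    rw [integral_const_mul, integral_const_mul, integral_inv_norm hδ.le, e1]
    have : M * (2 * Real.pi)⁻¹ * (2 * Real.pi * δ) = M * δ := by
      have := Real.pi_pos.ne'
      field_simp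
    rw [this]
  · refine Eventually.of_forall ?_
    intro w
    rw [norm_mul, norm_S]
    rcases eq_or_ne w 0 with rfl | h0
    · simp
      positivity
    have hw : 0 < ‖w‖ := norm_pos_iff.2 h0
    by_cases hd : ‖w‖ ≤ δ
    · rw [Set.indicator_of_mem (show ‖w‖ ∈ Set.Ioc 0 δ from ⟨hw, hd⟩)]
      have h2 : (2 * Real.pi)⁻¹ * ‖w‖⁻¹ * ‖h (z - w)‖ ≤ (2 * Real.pi)⁻¹ * ‖w‖⁻¹ * M := by
        gcongr
        exact hM _
      have h3 : 0 ≤ (2 * Real.pi * δ)⁻¹ * ‖h (z - w)‖ := by positivity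
      nlinarith
    · push Not at hd
      rw [Set.indicator_of_notMem (show ‖w‖ ∉ Set.Ioc 0 δ from fun h => absurd h.2 (not_le.2 hd))]
      rw [mul_zero, zero_add]
      gcongr ?_ * _
      rw [← mul_inv]
      gcongr

end

end MP8a09
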