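import Pool.Agent.Helper897.ZS.Dbar1

open MeasureTheory Metric Set Filter Topology Complex
open scoped Convolution ContDiff

namespace MP8a09

noncomputable section

/-- direction `e^{iθ}` -/
def ex (θ : ℝ) : ℂ := Real.cos θ + Real.sin θ * I

lemma continuous_ex : Continuous ex := by unfold ex; fun_prop

lemma norm_ex (θ : ℝ) : ‖ex θ‖ = 1 := by
  unfold ex
  rw [Complex.norm_eq_sqrt_sq_add_sq]
  simp [Complex.cos_ofReal_re, Complex.sin_ofReal_re]

lemma ex_ne (θ : ℝ) : ex θ ≠ 0 := by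
  intro h
  have := norm_ex θ
  rw [h] at this
  simp at this

lemma db_ex (L : ℂ →L[ℝ] ℂ) (θ : ℝ) : (ex θ)⁻¹ * db L = I * L (ex θ) - L (I * ex θ) := by
  have h1 : L (ex θ) = Real.cos θ * L 1 + Real.sin θ * L I := by
    rw [clm_apply L (ex θ)]
    simp [ex]
  have h2 : L (I * ex θ) = - Real.sin θ * L 1 + Real.cos θ * L I := by
    rw [clm_apply L (I * ex θ)]
    simp [ex]
  have h3 : ex θ * (Real.cos θ - Real.sin θ * I) = 1 := by
    unfold ex
    have : ((Real.cos θ : ℂ)) ^ 2 + (Real.sin θ : ℂ) ^ 2 = 1 := by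
      have := Real.cos_sq_add_sin_sq θ
      exact_mod_cast this
    ring_nf
    rw [I_sq]
    linear_combination this
  have h4 : (ex θ)⁻¹ = Real.cos θ - Real.sin θ * I := by
    exact inv_eq_of_mul_eq_one_right h3
  rw [h4, h1, h2]
  unfold db
  ring_nf
  rw [I_sq]
  ring

lemma hasDerivAt_ex (θ : ℝ) : HasDerivAt ex (I * ex θ) θ := by
  unfold ex
  have h1 : HasDerivAt (fun θ : ℝ => ((Real.cos θ : ℝ) : ℂ)) ((-Real.sin θ : ℝ) : ℂ) θ :=
    (Real.hasDerivAt_cos θ).ofReal_comp
  have h2 : HasDerivAt (fun θ : ℝ => ((Real.sin θ : ℝ) : ℂ)) ((Real.cos θ : ℝ) : ℂ) θ :=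
    (Real.hasDerivAt_sin θ).ofReal_comp
  have h3 := h1.add (h2.mul_const I)
  refine h3.congr_deriv ?_
  push_cast
  ring_nf
  rw [I_sq]
  ring

/-- Cauchy–Pompeiu formula for compactly supported `C¹` functions. -/
lemma cauchy_pompeiu {ψ : ℂ → ℂ} (hψ : ContDiff ℝ 1 ψ) (hc : HasCompactSupport ψ) :
    ∫ w, w⁻¹ * db (fderiv ℝ ψ w) = - (2 * Real.pi * I) * ψ 0 := by
  obtain ⟨R, hR0, hR⟩ : ∃ R : ℝ, 0 < R ∧ tsupport ψ ⊆ closedBall 0 R := by
    obtain ⟨R, hR⟩ := hc.isCompact.isBounded.subset_closedBall 0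
    exact ⟨max R 1, by positivity, hR.trans (closedBall_subset_closedBall (le_max_left _ _))⟩
  have hd : ∀ w : ℂ, R < ‖w‖ → fderiv ℝ ψ w = 0 := by
    intro w hw
    have : w ∉ tsupport ψ := fun h => by
      have := hR h
      simp at this
      linarith
    have h2 : w ∉ tsupport (fderiv ℝ ψ) := fun h => this (tsupport_fderiv_subset ℝ h)
    exact image_eq_zero_of_notMem_tsupport h2
  have hd0 : ∀ w : ℂ, R < ‖w‖ → ψ w = 0 := by
    intro w hw
    have : w ∉ tsupport ψ := fun h => by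
      have := hR h
      simp at this
      linarith
    exact image_eq_zero_of_notMem_tsupport this
  have hcf : Continuous (fderiv ℝ ψ) := hψ.continuous_fderiv one_ne_zero
  rw [← Complex.integral_comp_polarCoord_symm]
  let A : ℝ × ℝ → ℂ := fun p => fderiv ℝ ψ (p.1 * ex p.2) (ex p.2)
  let B : ℝ × ℝ → ℂ := fun p => fderiv ℝ ψ (p.1 * ex p.2) (I * ex p.2)
  have hex := continuous_ex
  have hA : Continuous A := by
    have h1 : Continuous (fun p : ℝ × ℝ => fderiv ℝ ψ (p.1 * ex p.2)) := by fun_prop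
    exact h1.clm_apply (by fun_prop)
  have hB : Continuous B := by
    have h1 : Continuous (fun p : ℝ × ℝ => fderiv ℝ ψ (p.1 * ex p.2)) := by fun_prop
    exact h1.clm_apply (by fun_prop)
  have htar : polarCoord.target = Ioi (0:ℝ) ×ˢ Ioo (-Real.pi) Real.pi := rfl
  have hdA : ∀ p : ℝ × ℝ, R < p.1 → fderiv ℝ ψ (p.1 * ex p.2) = 0 := by
    intro p hp
    apply hd
    rw [norm_mul, norm_ex, mul_one]
    simp only [Complex.norm_real, Real.norm_eq_abs]
    exact hp.trans_le (le_abs_self _)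
  have hint : ∀ F : ℝ × ℝ → ℂ, Continuous F → (∀ p : ℝ × ℝ, R < p.1 → F p = 0) →
      IntegrableOn F (Ioi (0:ℝ) ×ˢ Ioo (-Real.pi) Real.pi) := by
    intro F hF h0
    have hcomp : IsCompact (Icc (0:ℝ) R ×ˢ Icc (-Real.pi) Real.pi) := isCompact_Icc.prod isCompact_Icc
    refine (hF.continuousOn.integrableOn_compact hcomp).of_forall_sdiff_eq_zero
      (measurableSet_Ioi.prod measurableSet_Ioo) ?_
    rintro ⟨r, θ⟩ ⟨⟨h1, h2⟩, h3⟩
    apply h0
    by_contra hcon
    push Not at hcon
    apply h3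
    simp only [Set.mem_Ioi, Set.mem_Ioo] at h1 h2
    exact ⟨⟨h1.le, hcon⟩, ⟨h2.1.le, h2.2.le⟩⟩
  have hiA := hint A hA (fun p hp => by simp only [A]; rw [hdA p hp]; rfl)
  have hiB := hint B hB (fun p hp => by simp only [B]; rw [hdA p hp]; rfl)
  have e1 : ∫ p in polarCoord.target, p.1 • ((Complex.polarCoord.symm p)⁻¹ *
      db (fderiv ℝ ψ (Complex.polarCoord.symm p))) =
      ∫ p in Ioi (0:ℝ) ×ˢ Ioo (-Real.pi) Real.pi, (I * A p - B p) := by
    rw [htar]
    refine setIntegral_congr_fun (measurableSet_Ioi.prod measurableSet_Ioo) ?_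
    rintro ⟨r, θ⟩ ⟨h1, h2⟩
    have hr : (r:ℂ) ≠ 0 := by
      simp only [Set.mem_Ioi] at h1
      exact_mod_cast (ne_of_gt h1)
    have e2 : Complex.polarCoord.symm (r, θ) = r * ex θ := by
      rw [Complex.polarCoord_symm_apply]; rfl
    simp only [A, B]
    rw [e2, ← db_ex, mul_inv]
    simp only [Complex.real_smul]
    field_simp
  rw [e1, integral_sub (hiA.const_mul I) hiB, integral_const_mul]
  have hAv : ∫ p in Ioi (0:ℝ) ×ˢ Ioo (-Real.pi) Real.pi, A p = - (2 * Real.pi) * ψ 0 := by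
    rw [Measure.volume_eq_prod, ← Measure.prod_restrict]
    rw [integral_prod_symm]
    swap
    · rw [Measure.prod_restrict, ← Measure.volume_eq_prod]; exact hiA
    have : ∀ θ : ℝ, ∫ r in Ioi (0:ℝ), A (r, θ) = - ψ 0 := by
      intro θ
      have hder : ∀ r : ℝ, HasDerivAt (fun r : ℝ => ψ (r * ex θ)) (A (r, θ)) r := by
        intro r
        have h1 : HasFDerivAt ψ (fderiv ℝ ψ (r * ex θ)) (r * ex θ) :=
          (hψ.differentiable one_ne_zero _).hasFDerivAt
        have h2 : HasDerivAt (fun r : ℝ => (r:ℂ) * ex θ) (ex θ) r := by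
          simpa using (hasDerivAt_id r).ofReal_comp.mul_const (ex θ)
        exact h1.comp_hasDerivAt r h2
      have hint1 : IntegrableOn (fun r => A (r, θ)) (Ioi 0) := by
        have hc1 : Continuous (fun r => A (r, θ)) := by fun_prop
        refine (hc1.continuousOn.integrableOn_compact (isCompact_Icc (a := (0:ℝ)) (b := R))).of_forall_sdiff_eq_zero
          measurableSet_Ioi ?_
        rintro r ⟨h1, h2⟩
        simp only [Set.mem_Ioi, Set.mem_Icc, not_and, not_le] at h1 h2
        simp only [A]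
        rw [hdA (r, θ) (h2 h1.le)]; rfl
      have htend : Tendsto (fun r : ℝ => ψ (r * ex θ)) atTop (𝓝 0) := by
        refine tendsto_const_nhds.congr' ?_
        filter_upwards [eventually_gt_atTop R] with r hr
        symm
        apply hd0
        rw [norm_mul, norm_ex, mul_one]
        simp only [Complex.norm_real, Real.norm_eq_abs]
        exact hr.trans_le (le_abs_self _)
      have := integral_Ioi_of_hasDerivAt_of_tendsto (a := (0:ℝ)) (f := fun r : ℝ => ψ (r * ex θ))
        (f' := fun r => A (r, θ)) (m := 0) (hder 0).continuousAt.continuousWithinAt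
        (fun x _ => hder x) hint1 htend
      rw [this]
      simp
    simp_rw [this]
    rw [setIntegral_const]
    have hvol : (volume : Measure ℝ).real (Ioo (-Real.pi) Real.pi) = 2 * Real.pi := by
      rw [Real.volume_real_Ioo_of_le (by linarith [Real.pi_pos])]
      ring
    rw [hvol, Complex.real_smul]
    push_cast
    ring
  have hBv : ∫ p in Ioi (0:ℝ) ×ˢ Ioo (-Real.pi) Real.pi, B p = 0 := by
    rw [Measure.volume_eq_prod, ← Measure.prod_restrict]
    rw [integral_prod]
    swap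
    · rw [Measure.prod_restrict, ← Measure.volume_eq_prod]; exact hiB
    have : ∀ r ∈ Ioi (0:ℝ), ∫ θ in Ioo (-Real.pi) Real.pi, B (r, θ) = 0 := by
      intro r hr
      have hr' : (r:ℂ) ≠ 0 := by
        simp only [Set.mem_Ioi] at hr
        exact_mod_cast (ne_of_gt hr)
      have hder : ∀ θ : ℝ, HasDerivAt (fun θ : ℝ => (r:ℂ)⁻¹ * ψ (r * ex θ)) (B (r, θ)) θ := by
        intro θ
        have h1 : HasFDerivAt ψ (fderiv ℝ ψ (r * ex θ)) (r * ex θ) :=
          (hψ.differentiable one_ne_zero _).hasFDerivAt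
        have h2 : HasDerivAt (fun θ : ℝ => (r:ℂ) * ex θ) (r * (I * ex θ)) θ :=
          (hasDerivAt_ex θ).const_mul _
        have h3 := (h1.comp_hasDerivAt θ h2).const_mul ((r:ℂ)⁻¹)
        refine h3.congr_deriv ?_
        have h4 : (r:ℂ) * (I * ex θ) = r • (I * ex θ) := by simp
        change (r:ℂ)⁻¹ * (fderiv ℝ ψ (r * ex θ)) (r * (I * ex θ)) = fderiv ℝ ψ (r * ex θ) (I * ex θ)
        rw [h4, map_smul, Complex.real_smul, ← mul_assoc, inv_mul_cancel₀ hr', one_mul]
      rw [← integral_Ioc_eq_integral_Ioo, ← intervalIntegral.integral_of_le (by linarith [Real.pi_pos])]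
      rw [intervalIntegral.integral_eq_sub_of_hasDerivAt (fun θ _ => hder θ)]
      · have : ex Real.pi = ex (-Real.pi) := by simp [ex]
        rw [this]; ring
      · apply Continuous.intervalIntegrable
        fun_prop
    rw [setIntegral_congr_fun measurableSet_Ioi this]
    exact integral_zero _ _
  rw [hAv, hBv]
  ring

end

end MP8a09
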