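import Pool.Agent.Helper897.ZS.Dbar2

open MeasureTheory Metric Set Filter Topology Complex
open scoped Convolution ContDiff

namespace MP8a09

noncomputable section

lemma exists_fderiv_conv {φ : ℂ → ℂ} (hφ : ContDiff ℝ 1 φ) (hc : HasCompactSupport φ) (z : ℂ) :
    ∃ L : ℂ →L[ℝ] ℂ, HasFDerivAt (fun z => ∫ w, S w * φ (z - w)) L z ∧ db L = φ z := by
  have hV : (fun z => ∫ w, S w * φ (z - w)) = S ⋆[ContinuousLinearMap.mul ℝ ℂ, volume] φ := by
    ext z
    rfl
  refine ⟨(S ⋆[(ContinuousLinearMap.mul ℝ ℂ).precompR ℂ, volume] fderiv ℝ φ) z, ?_, ?_⟩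
  · rw [hV]
    exact hc.hasFDerivAt_convolution_right _ locallyIntegrable_S hφ z
  · have hcf : Continuous (fderiv ℝ φ) := hφ.continuous_fderiv one_ne_zero
    have hint : Integrable (fun t => ((ContinuousLinearMap.mul ℝ ℂ).precompR ℂ (S t)) (fderiv ℝ φ (z - t))) :=
      (hc.fderiv ℝ).convolutionExists_right _ locallyIntegrable_S hcf z
    have hev : ∀ v : ℂ, ((S ⋆[(ContinuousLinearMap.mul ℝ ℂ).precompR ℂ, volume] fderiv ℝ φ) z) v =
        ∫ t, S t * (fderiv ℝ φ (z - t)) v := by
      intro v
      unfold convolution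
      rw [ContinuousLinearMap.integral_apply hint]
      rfl
    have hiv : ∀ v : ℂ, Integrable (fun t => S t * (fderiv ℝ φ (z - t)) v) := by
      intro v
      exact (ContinuousLinearMap.apply ℝ ℂ v).integrable_comp hint
    unfold db
    rw [hev, hev, ← integral_const_mul, ← integral_sub ((hiv 1).const_mul I) (hiv I)]
    have hψ : ContDiff ℝ 1 (fun w => φ (z - w)) := hφ.comp (by fun_prop)
    have hψc : HasCompactSupport (fun w => φ (z - w)) :=
      hc.comp_homeomorph (Homeomorph.subLeft z)
    have h1 := cauchy_pompeiu hψ hψc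
    have h2 : ∀ w, fderiv ℝ (fun w => φ (z - w)) w = - fderiv ℝ φ (z - w) := by
      intro w
      have h3 : HasFDerivAt φ (fderiv ℝ φ (z - w)) (z - w) :=
        (hφ.differentiable one_ne_zero _).hasFDerivAt
      have h4 : HasFDerivAt (fun w => z - w) (-ContinuousLinearMap.id ℝ ℂ) w := by
        exact (hasFDerivAt_id w).const_sub z
      have h5 : HasFDerivAt (fun w => φ (z - w)) _ w := h3.comp w h4
      rw [h5.fderiv]
      ext <;> simp
    have h6 : ∀ w, I * (S w * (fderiv ℝ φ (z - w)) 1) - S w * (fderiv ℝ φ (z - w)) I =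
        - (2 * Real.pi * I)⁻¹ * (w⁻¹ * db (fderiv ℝ (fun w => φ (z - w)) w)) := by
      intro w
      rw [h2]
      unfold db S
      simp only [neg_apply]
      rw [mul_inv (2 * Real.pi * I) w]
      ring
    simp_rw [h6]
    rw [integral_const_mul, h1]
    have : (2 * (Real.pi : ℂ) * I) ≠ 0 := by
      simp [Real.pi_ne_zero]
    rw [sub_zero]
    field_simp

/-- mollification in `L¹` with uniform bounds -/
lemma approx {e : ℂ → ℂ} (hm : Measurable e) {M R : ℝ} (hM : ∀ z, ‖e z‖ ≤ M)
    (hR : ∀ z, R < ‖z‖ → e z = 0) {ε : ℝ} (hε : 0 < ε) :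
    ∃ φ : ℂ → ℂ, ContDiff ℝ 1 φ ∧ HasCompactSupport φ ∧ (∀ z, ‖φ z‖ ≤ M) ∧
      Integrable (fun z => φ z - e z) ∧ ∫ z, ‖φ z - e z‖ < ε := by
  have hM0 : 0 ≤ M := (norm_nonneg _).trans (hM 0)
  have hsup : HasCompactSupport e := by
    refine HasCompactSupport.intro (isCompact_closedBall (0:ℂ) R) ?_
    intro x hx
    apply hR
    simpa using hx
  have hint : Integrable e := by
    have h1 : IntegrableOn (fun _ : ℂ => M) (closedBall 0 R) :=
      integrableOn_const (by exact (isCompact_closedBall _ _).measure_lt_top.ne)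
    have h2 : IntegrableOn e (closedBall 0 R) := by
      refine Integrable.mono' h1 hm.aestronglyMeasurable ?_
      exact Eventually.of_forall hM
    rw [← integrableOn_univ]
    refine h2.of_forall_sdiff_eq_zero MeasurableSet.univ ?_
    rintro x ⟨_, hx⟩
    apply hR
    simpa using hx
  have hloc : LocallyIntegrable e := hint.locallyIntegrable
  let ph : ℕ → ContDiffBump (0 : ℂ) := fun n => ⟨1 / (2 * (n + 1)), 1 / (n + 1), by positivity, by
    apply one_div_lt_one_div_of_lt (by positivity)
    have : (0:ℝ) ≤ n := n.cast_nonneg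
    linarith⟩
  let en : ℕ → ℂ → ℂ := fun n => (ph n).normed volume ⋆[ContinuousLinearMap.lsmul ℝ ℝ, volume] e
  have hrO : ∀ n, (ph n).rOut = 1 / ((n:ℝ) + 1) := fun n => rfl
  have hen_cd : ∀ n, ContDiff ℝ 1 (en n) := fun n =>
    (ph n).hasCompactSupport_normed.contDiff_convolution_left _ ((ph n).contDiff_normed) hloc
  have hen_cs : ∀ n, HasCompactSupport (en n) := fun n =>
    (ph n).hasCompactSupport_normed.convolution _ hsup
  have hen_b : ∀ n z, ‖en n z‖ ≤ M := by
    intro n z
    have h1 : ‖∫ t, (ph n).normed volume t • e (z - t)‖ ≤ ∫ t, (ph n).normed volume t * M := by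
      apply norm_integral_le_of_norm_le
      · exact ((ph n).integrable_normed).mul_const _
      · refine Eventually.of_forall fun t => ?_
        rw [norm_smul, Real.norm_of_nonneg ((ph n).nonneg_normed t)]
        gcongr
        · exact (ph n).nonneg_normed t
        · exact hM _
    rw [integral_mul_const, (ph n).integral_normed, one_mul] at h1
    exact h1
  have hen_s : ∀ n z, R + 1 < ‖z‖ → en n z = 0 := by
    intro n z hz
    change ∫ t, (ph n).normed volume t • e (z - t) = 0
    have : (fun t => (ph n).normed volume t • e (z - t)) = fun _ => 0 := by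
      ext t
      by_cases ht : t ∈ Function.support ((ph n).normed (volume : Measure ℂ))
      · rw [(ph n).support_normed_eq] at ht
        have h1 : ‖t‖ < 1 / ((n:ℝ) + 1) := by simpa [hrO] using ht
        have h2 : 1 / ((n:ℝ) + 1) ≤ 1 := by
          rw [div_le_one (by positivity)]
          have : (0:ℝ) ≤ n := n.cast_nonneg
          linarith
        rw [hR (z - t), smul_zero]
        have := norm_sub_norm_le z t
        linarith
      · rw [Function.notMem_support.1 ht, zero_smul]
    rw [this]
    simp
  have hae : ∀ᵐ z : ℂ, Tendsto (fun n => en n z) atTop (𝓝 (e z)) := by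
    refine ContDiffBump.ae_convolution_tendsto_right_of_locallyIntegrable (K := 2) ?_ ?_ hloc
    · exact tendsto_one_div_add_atTop_nhds_zero_nat
    · refine Eventually.of_forall fun n => ?_
      change 1 / ((n:ℝ) + 1) ≤ 2 * (1 / (2 * (n + 1)))
      apply le_of_eq
      field_simp
  have hlim : Tendsto (fun n => ∫ z, ‖en n z - e z‖) atTop (𝓝 (∫ _z : ℂ, (0:ℝ))) := by
    refine tendsto_integral_of_dominated_convergence
      ((closedBall (0:ℂ) (R + 1)).indicator (fun _ => 2 * M)) ?_ ?_ ?_ ?_
    · intro n
      exact ((hen_cd n).continuous.aestronglyMeasurable.sub hm.aestronglyMeasurable).norm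
    · rw [integrable_indicator_iff measurableSet_closedBall]
      exact integrableOn_const (by exact (isCompact_closedBall _ _).measure_lt_top.ne)
    · intro n
      refine Eventually.of_forall fun z => ?_
      rw [norm_norm]
      by_cases hz : ‖z‖ ≤ R + 1
      · rw [Set.indicator_of_mem (by simpa using hz)]
        refine (norm_sub_le _ _).trans ?_
        linarith [hen_b n z, hM z]
      · push Not at hz
        rw [hen_s n z hz, hR z (by linarith)]
        simp
        exact Set.indicator_nonneg (fun _ _ => by positivity) _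
    · filter_upwards [hae] with z hz
      have := (hz.sub_const (e z)).norm
      simpa using this
  rw [integral_zero] at hlim
  obtain ⟨n, hn⟩ := (hlim.eventually (gt_mem_nhds hε)).exists
  refine ⟨en n, hen_cd n, hen_cs n, hen_b n, ?_, hn⟩
  exact ((hen_cd n).continuous.integrable_of_hasCompactSupport (hen_cs n)).sub hint

end

end MP8a09
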