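import Pool.Agent.Helper897.ZS.Dbar3

open MeasureTheory Metric Set Filter Topology Complex
open scoped Convolution ContDiff Interval

namespace MP8a09

noncomputable section

lemma integrable_conv {h : ℂ → ℂ} (hm : Measurable h) {M : ℝ}
    (hM : ∀ z, ‖h z‖ ≤ M)
    (hi : Integrable h) (z : ℂ) :
    Integrable (fun w => S w * h (z - w)) := by
  have hM0 : 0 ≤ M := (norm_nonneg _).trans (hM 0)
  have hi' : Integrable (fun w => h (z - w)) := hi.comp_sub_left z
  have hb : Integrable (fun w : ℂ => M * (2 * Real.pi)⁻¹ * (Set.Ioc 0 1).indicator (fun y : ℝ => y⁻¹) ‖w‖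
      + (2 * Real.pi * 1)⁻¹ * ‖h (z - w)‖) :=
    ((integrable_inv_norm 1).const_mul _).add (hi'.norm.const_mul _)
  refine hb.mono' ?_ ?_
  · exact (measurable_S.mul (hm.comp (by fun_prop))).aestronglyMeasurable
  · refine Eventually.of_forall ?_
    intro w
    rw [norm_mul, norm_S]
    rcases eq_or_ne w 0 with rfl | h0
    · simp
      positivity
    have hw : 0 < ‖w‖ := norm_pos_iff.2 h0
    by_cases hd : ‖w‖ ≤ 1
    · rw [Set.indicator_of_mem (show ‖w‖ ∈ Set.Ioc 0 (1:ℝ) from ⟨hw, hd⟩)]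
      have h2 : (2 * Real.pi)⁻¹ * ‖w‖⁻¹ * ‖h (z - w)‖ ≤ (2 * Real.pi)⁻¹ * ‖w‖⁻¹ * M := by
        gcongr
        exact hM _
      have h3 : 0 ≤ (2 * Real.pi * 1)⁻¹ * ‖h (z - w)‖ := by positivity
      nlinarith
    · push Not at hd
      rw [Set.indicator_of_notMem (show ‖w‖ ∉ Set.Ioc 0 (1:ℝ) from fun h => absurd h.2 (not_le.2 hd))]
      rw [mul_zero, zero_add]
      gcongr ?_ * _
      rw [← mul_inv]
      gcongr

lemma norm_iter_le {h : ℂ → ℂ} (hi : Integrable h) (a b c d : ℝ) :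
    ‖∫ x in a..b, ∫ y in c..d, h (x + y * I)‖ ≤ ∫ z, ‖h z‖ := by
  have hmp := Complex.volume_preserving_equiv_real_prod.symm
  have hemb : MeasurableEmbedding (⇑measurableEquivRealProd.symm) :=
    measurableEquivRealProd.symm.measurableEmbedding
  have he : ∀ p : ℝ × ℝ, measurableEquivRealProd.symm p = p.1 + p.2 * I := by
    intro p
    apply Complex.ext <;> simp [Complex.measurableEquivRealProd_symm_apply]
  have hi1 : Integrable (fun p : ℝ × ℝ => ‖h (p.1 + p.2 * I)‖) (volume.prod volume) := by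
    have := (hmp.integrable_comp_emb hemb (g := fun z => ‖h z‖)).2 hi.norm
    rw [← Measure.volume_eq_prod]
    refine this.congr (Eventually.of_forall fun p => ?_)
    simp only [Function.comp, he]
  have hval : ∫ p : ℝ × ℝ, ‖h (p.1 + p.2 * I)‖ ∂(volume.prod volume) = ∫ z, ‖h z‖ := by
    rw [← Measure.volume_eq_prod]
    rw [← hmp.integral_comp hemb (fun z => ‖h z‖)]
    simp only [he]
  have h1 : ∀ᵐ x : ℝ, Integrable (fun y : ℝ => ‖h (x + y * I)‖) := hi1.prod_right_ae
  have h2 : Integrable (fun x : ℝ => ∫ y : ℝ, ‖h (x + y * I)‖) := hi1.integral_prod_left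
  have h3 : ∀ᵐ x : ℝ, ‖∫ y in c..d, h (x + y * I)‖ ≤ ∫ y : ℝ, ‖h (x + y * I)‖ := by
    filter_upwards [h1] with x hx
    rw [intervalIntegral.norm_integral_eq_norm_integral_uIoc]
    refine (norm_integral_le_integral_norm _).trans ?_
    exact setIntegral_le_integral hx (Eventually.of_forall fun _ => norm_nonneg _)
  rw [intervalIntegral.norm_integral_eq_norm_integral_uIoc]
  refine (norm_integral_le_of_norm_le h2.integrableOn (ae_restrict_of_ae h3)).trans ?_
  refine (setIntegral_le_integral h2 (Eventually.of_forall fun _ => integral_nonneg fun _ => norm_nonneg _)).trans ?_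
  rw [← hval, integral_prod _ hi1]

lemma tendsto_path {g : ℂ → ℂ} {gn : ℕ → ℂ → ℂ} {K : Set ℂ} {B : ℝ}
    (hc : ∀ n, ContinuousOn (gn n) K) (hb : ∀ n, ∀ z ∈ K, ‖gn n z‖ ≤ B)
    (ht : ∀ z ∈ K, Tendsto (fun n => gn n z) atTop (𝓝 (g z)))
    {a b : ℝ} {γ : ℝ → ℂ} (hγ : Continuous γ) (hK : ∀ x ∈ [[a, b]], γ x ∈ K) :
    Tendsto (fun n => ∫ x in a..b, gn n (γ x)) atTop (𝓝 (∫ x in a..b, g (γ x))) := by
  refine intervalIntegral.tendsto_integral_filter_of_dominated_convergence (fun _ => B) ?_ ?_ ?_ ?_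
  · refine Eventually.of_forall fun n => ?_
    have : ContinuousOn (fun x => gn n (γ x)) [[a, b]] :=
      (hc n).comp hγ.continuousOn hK
    exact (this.mono uIoc_subset_uIcc).aestronglyMeasurable measurableSet_uIoc
  · refine Eventually.of_forall fun n => Eventually.of_forall fun x hx => ?_
    exact hb n _ (hK x (uIoc_subset_uIcc hx))
  · exact intervalIntegrable_const
  · exact Eventually.of_forall fun x hx => ht _ (hK x (uIoc_subset_uIcc hx))

end

end MP8a09
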