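import Mathlib

open Metric Set Filter Topology Complex
open scoped NNReal

namespace MP8a09

/-- A bounded Lipschitz domain: a bounded connected open set `G ⊂ ℂ` such that near each boundary
point `ζ`, after a rotation (multiplication by a unimodular `u`), the set `G` is the part of an open
box lying strictly above the graph of a Lipschitz function `ψ` (so that, in the box, the boundary is
the graph and `G` lies on one side of it). -/
def IsLipschitzDomain (G : Set ℂ) : Prop :=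
  Bornology.IsBounded G ∧ IsOpen G ∧ IsConnected G ∧
    ∀ ζ ∈ frontier G, ∃ (u : ℂ) (r h : ℝ) (K : ℝ≥0) (ψ : ℝ → ℝ),
      ‖u‖ = 1 ∧ 0 < r ∧ 0 < h ∧ LipschitzWith K ψ ∧
      ∀ x y : ℝ, |x| < r → |y| < h → (ζ + u * (x + y * I) ∈ G ↔ ψ x < y)

/-- `f ∈ C^γ(G)`: `f` is analytic in `G`, its `γ`-th derivative is uniformly continuous on `G`, and
on `clos G` the letter `f` denotes the continuous extension. -/
def SmoothClass (G : Set ℂ) (γ : ℕ) (f : ℂ → ℂ) : Prop :=
  DifferentiableOn ℂ f G ∧ UniformContinuousOn (iteratedDeriv γ f) G ∧ ContinuousOn f (closure G)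

/-- The family `𝒵_γ(clos G)` of zero sets of `C^γ(G)` in `clos G`. -/
def ZeroClos (G : Set ℂ) (γ : ℕ) : Set (Set ℂ) :=
  {E | ∃ f : ℂ → ℂ, SmoothClass G γ f ∧ (∃ z ∈ G, f z ≠ 0) ∧ E = {z ∈ closure G | f z = 0}}

/-- The family `𝒵_γ(∂G)` of zero sets of `C^γ(G)` on `∂G`. -/
def ZeroBdry (G : Set ℂ) (γ : ℕ) : Set (Set ℂ) :=
  {E | ∃ f : ℂ → ℂ, SmoothClass G γ f ∧ (∃ z ∈ G, f z ≠ 0) ∧ E = {z ∈ frontier G | f z = 0}}

end MP8a09
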