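import Pool.Agent.Helper897.ZS.Defs

open Metric Set Filter Topology Complex
open scoped NNReal ContDiff Manifold

namespace MP8a09

noncomputable section

/-- `τ` is a uniformly inward direction for `G` near `x` -/
def GoodDir (G : Set ℂ) (x τ : ℂ) : Prop :=
  ∃ c > 0, ∃ t₀ > 0, ∀ z ∈ closure G, ‖z - x‖ < t₀ → ∀ t : ℝ, 0 < t → t < t₀ →
    ball (z + t * τ) (c * t) ⊆ G

lemma goodDir_interior {G : Set ℂ} (hG : IsOpen G) {x : ℂ} (hx : x ∈ G) : GoodDir G x 0 := by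
  obtain ⟨δ, hδ, hb⟩ := Metric.isOpen_iff.1 hG x hx
  refine ⟨1, one_pos, δ / 2, by positivity, fun z _ hz t ht0 ht => ?_⟩
  refine Subset.trans (ball_subset_ball' ?_) hb
  rw [mul_zero, add_zero, dist_eq_norm]
  linarith

lemma goodDir_ext {G : Set ℂ} {x : ℂ} (hx : x ∉ closure G) : GoodDir G x 0 := by
  obtain ⟨δ, hδ, hb⟩ := Metric.isOpen_iff.1 (isClosed_closure (s := G)).isOpen_compl x hx
  refine ⟨1, one_pos, δ, hδ, fun z hz hzx => ?_⟩
  exact absurd hz (hb (by rwa [mem_ball, dist_eq_norm]))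

lemma goodDir_frontier {G : Set ℂ} {ζ : ℂ} {u : ℂ} {r h : ℝ} {K : ℝ≥0} {ψ : ℝ → ℝ}
    (hu : ‖u‖ = 1) (hr : 0 < r) (hh : 0 < h) (hψ : LipschitzWith K ψ)
    (hG : ∀ x y : ℝ, |x| < r → |y| < h → (ζ + u * (x + y * I) ∈ G ↔ ψ x < y)) :
    GoodDir G ζ (u * I) := by
  have hu0 : u ≠ 0 := by
    intro h0
    rw [h0, norm_zero] at hu
    exact zero_ne_one hu
  have hK : (0:ℝ) ≤ K := K.2
  have hrep : ∀ z : ℂ, z = ζ + u * ((((z - ζ) / u).re : ℂ) + ((z - ζ) / u).im * I) := by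
    intro z
    rw [re_add_im]
    field_simp
    ring
  have hn : ∀ z : ℂ, ‖(z - ζ) / u‖ = ‖z - ζ‖ := by
    intro z
    rw [norm_div, hu, div_one]
  -- points of the closure lie on or above the graph
  have hcl : ∀ z ∈ closure G, ‖z - ζ‖ < min r h → ψ ((z - ζ) / u).re ≤ ((z - ζ) / u).im := by
    intro z hz hzr
    by_contra hcon
    push Not at hcon
    have hcont : Continuous (fun z : ℂ => ψ ((z - ζ) / u).re - ((z - ζ) / u).im) := by
      have := hψ.continuous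
      fun_prop
    have hopen : IsOpen {z : ℂ | 0 < ψ ((z - ζ) / u).re - ((z - ζ) / u).im ∧ ‖z - ζ‖ < min r h} := by
      have h1 : IsOpen {z : ℂ | 0 < ψ ((z - ζ) / u).re - ((z - ζ) / u).im} :=
        isOpen_lt continuous_const hcont
      have h2 : IsOpen {z : ℂ | ‖z - ζ‖ < min r h} := isOpen_lt (by fun_prop) continuous_const
      exact h1.inter h2
    obtain ⟨w, ⟨hw1, hw2⟩, hwG⟩ := mem_closure_iff.1 hz _ hopen ⟨by linarith, hzr⟩
    rw [hrep w] at hwG
    rw [hG _ _ ?_ ?_] at hwG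
    · linarith
    · exact (abs_re_le_norm _).trans_lt (by rw [hn]; exact hw2.trans_le (min_le_left _ _))
    · exact (abs_im_le_norm _).trans_lt (by rw [hn]; exact hw2.trans_le (min_le_right _ _))
  refine ⟨(1 + (K:ℝ))⁻¹, by positivity, min r h / 3, by positivity, fun z hz hzx t ht0 ht => ?_⟩
  have hmin : 0 < min r h := lt_min hr hh
  have hzc := hcl z hz (by linarith)
  intro p hp
  set q : ℂ := (z - ζ) / u with hq
  set a : ℂ := (p - (z + t * (u * I))) / u with ha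
  have hc1 : (1 + (K:ℝ))⁻¹ ≤ 1 := inv_le_one_of_one_le₀ (by linarith)
  have han : ‖a‖ < (1 + (K:ℝ))⁻¹ * t := by
    rw [ha, norm_div, hu, div_one]
    rwa [mem_ball, dist_eq_norm] at hp
  have hat : ‖a‖ < t := by nlinarith
  have hqn : ‖q‖ < min r h / 3 := by rw [hq, hn]; exact hzx
  have hpe : p = ζ + u * (((q.re + a.re : ℝ) : ℂ) + ((q.im + a.im + t : ℝ) : ℂ) * I) := by
    have h1 : ((q.re + a.re : ℝ) : ℂ) + ((q.im + a.im + t : ℝ) : ℂ) * I = q + a + t * I := by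
      apply Complex.ext <;> simp
    rw [h1, hq, ha]
    field_simp
    ring
  have hr1 := abs_re_le_norm q
  have hr2 := abs_re_le_norm a
  have hi1 := abs_im_le_norm q
  have hi2 := abs_im_le_norm a
  have hm1 := min_le_left r h
  have hm2 := min_le_right r h
  rw [hpe, hG]
  · have h1 : ψ (q.re + a.re) ≤ ψ q.re + K * ‖a‖ := by
      have h2 := hψ.dist_le_mul (q.re + a.re) q.re
      rw [Real.dist_eq, Real.dist_eq] at h2
      have h3 : |q.re + a.re - q.re| ≤ ‖a‖ := by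
        rw [add_sub_cancel_left]; exact hr2
      have h4 := (le_abs_self _).trans (h2.trans (mul_le_mul_of_nonneg_left h3 hK))
      linarith
    have h5 : (1 + K) * ‖a‖ < t := by
      have h6 : (1 + (K:ℝ)) * ‖a‖ < (1 + (K:ℝ)) * ((1 + (K:ℝ))⁻¹ * t) :=
        mul_lt_mul_of_pos_left han (by positivity)
      rwa [← mul_assoc, mul_inv_cancel₀ (by positivity), one_mul] at h6
    have h7 := (abs_le.1 hi2).1
    linarith
  · refine (abs_add_le _ _).trans_lt ?_
    linarith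
  · refine (abs_add_le _ _).trans_lt ?_
    rw [abs_of_pos ht0]
    have := abs_add_le q.im a.im
    linarith

lemma exists_goodDir {G : Set ℂ} (hG : IsLipschitzDomain G) (x : ℂ) : ∃ τ, GoodDir G x τ := by
  obtain ⟨_, ho, _, hf⟩ := hG
  by_cases hx : x ∈ closure G
  · by_cases hx' : x ∈ G
    · exact ⟨0, goodDir_interior ho hx'⟩
    · have : x ∈ frontier G := by
        rw [ho.frontier_eq]
        exact ⟨hx, hx'⟩
      obtain ⟨u, r, h, K, ψ, hu, hr, hh, hψ, hG⟩ := hf x this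
      exact ⟨_, goodDir_frontier hu hr hh hψ hG⟩
  · exact ⟨0, goodDir_ext hx⟩

lemma goodDir_nhds {G : Set ℂ} {x τ : ℂ} (h : GoodDir G x τ) : ∀ᶠ y in 𝓝 x, GoodDir G y τ := by
  obtain ⟨c, hc, t₀, ht₀, hz⟩ := h
  filter_upwards [ball_mem_nhds x (half_pos ht₀)] with y hy
  rw [mem_ball, dist_eq_norm] at hy
  refine ⟨c, hc, t₀ / 2, by positivity, fun z hzc hzy t h1 h2 => hz z hzc ?_ t h1 (by linarith)⟩
  have : z - x = (z - y) + (y - x) := by ring
  rw [this]
  refine (norm_add_le _ _).trans_lt ?_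
  linarith

lemma goodDir_convex (G : Set ℂ) (x : ℂ) : Convex ℝ {τ | GoodDir G x τ} := by
  rw [convex_iff_forall_pos]
  rintro τ₁ ⟨c₁, hc₁, t₁, ht₁, h1⟩ τ₂ ⟨c₂, hc₂, t₂, ht₂, h2⟩ a b ha hb hab
  have ha1 : a < 1 := by linarith
  have hb1 : b < 1 := by linarith
  refine ⟨c₁ * a, by positivity, min (min t₁ t₂) (t₂ / (1 + ‖τ₁‖ + c₁)), by positivity,
    fun z hz hzx t ht0 ht => ?_⟩
  have htt1 : t < t₁ := ht.trans_le ((min_le_left _ _).trans (min_le_left _ _))
  have htt2 : t < t₂ := ht.trans_le ((min_le_left _ _).trans (min_le_right _ _))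
  have htt3 : t < t₂ / (1 + ‖τ₁‖ + c₁) := ht.trans_le (min_le_right _ _)
  have hzt1 : ‖z - x‖ < t₁ := hzx.trans_le ((min_le_left _ _).trans (min_le_left _ _))
  have hzt3 : ‖z - x‖ < t₂ / (1 + ‖τ₁‖ + c₁) := hzx.trans_le (min_le_right _ _)
  have hb1 := h1 z hz hzt1 (t * a) (by positivity) (by nlinarith)
  intro p hp
  rw [mem_ball, dist_eq_norm] at hp
  have hpe : ‖p - t * b * τ₂ - (z + (t * a : ℝ) * τ₁)‖ < c₁ * a * t := by
    have e0 : p - t * b * τ₂ - (z + (t * a : ℝ) * τ₁) = p - (z + t * (a • τ₁ + b • τ₂)) := by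
      rw [Complex.real_smul, Complex.real_smul]
      push_cast
      ring
    rw [e0]
    exact hp
  have hpG : p - t * b * τ₂ ∈ G := by
    apply hb1
    rw [mem_ball, dist_eq_norm]
    convert hpe using 1
    ring
  have hpx : ‖p - t * b * τ₂ - x‖ < t₂ := by
    have e1 : p - t * b * τ₂ - x = (p - t * b * τ₂ - (z + (t * a : ℝ) * τ₁)) + (t * a : ℝ) * τ₁ + (z - x) := by
      ring
    rw [e1]
    have n1 : ‖((t * a : ℝ) : ℂ) * τ₁‖ = t * a * ‖τ₁‖ := by
      rw [norm_mul, Complex.norm_real, Real.norm_of_nonneg (by positivity)]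
    have n2 := norm_add₃_le (a := p - t * b * τ₂ - (z + (t * a : ℝ) * τ₁)) (b := ((t * a : ℝ) : ℂ) * τ₁) (c := z - x)
    rw [n1] at n2
    have n3 : t * a * ‖τ₁‖ ≤ t * ‖τ₁‖ := by
      have : 0 ≤ ‖τ₁‖ := norm_nonneg _
      have : t * a ≤ t := by nlinarith
      nlinarith
    have n4 : c₁ * a * t ≤ c₁ * t := by
      have : a * t ≤ t := by nlinarith
      nlinarith
    have hpos : 0 < 1 + ‖τ₁‖ + c₁ := by positivity
    rw [lt_div_iff₀ hpos] at htt3 hzt3
    have hτ0 : 0 ≤ ‖τ₁‖ := norm_nonneg _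
    have hzx0 : 0 ≤ ‖z - x‖ := norm_nonneg _
    -- set m = max
    rcases le_total t (‖z - x‖) with hle | hle
    · have : c₁ * t + t * ‖τ₁‖ + ‖z - x‖ ≤ ‖z - x‖ * (1 + ‖τ₁‖ + c₁) := by nlinarith
      linarith
    · have : c₁ * t + t * ‖τ₁‖ + ‖z - x‖ ≤ t * (1 + ‖τ₁‖ + c₁) := by nlinarith
      linarith
  have hb2 := h2 _ (subset_closure hpG) hpx (t * b) (by positivity) (by nlinarith)
  apply hb2
  have : p - t * b * τ₂ + ((t * b : ℝ) : ℂ) * τ₂ = p := by
    push_cast; ring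
  rw [this]
  exact mem_ball_self (by positivity)

/-- the smooth inward field -/
theorem exists_field {G : Set ℂ} (hG : IsLipschitzDomain G) :
    ∃ τ : ℂ → ℂ, ContDiff ℝ ∞ τ ∧ ∃ c > 0, ∃ t₀ > 0, ∀ z ∈ closure G, ∀ t : ℝ, 0 < t → t ≤ t₀ →
      ball (z + t * τ z) (c * t) ⊆ G := by
  obtain ⟨τ, hτ⟩ := exists_contMDiffMap_forall_mem_convex_of_local_const (n := ⊤) 𝓘(ℝ, ℂ)
    (t := fun x => {τ | GoodDir G x τ}) (fun x => goodDir_convex G x)
    (fun x => by
      obtain ⟨τ, hτ⟩ := exists_goodDir hG x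
      exact ⟨τ, goodDir_nhds hτ⟩)
  have hτs : ContDiff ℝ ∞ (τ : ℂ → ℂ) := τ.contMDiff.contDiff
  refine ⟨τ, hτs, ?_⟩
  have hcomp : IsCompact (closure G) := hG.1.isCompact_closure
  have key : ∃ c > 0, ∃ t₀ > 0, ∀ z ∈ closure G, z ∈ closure G → ∀ t : ℝ, 0 < t → t ≤ t₀ →
      ball (z + t * τ z) (c * t) ⊆ G := by
    refine hcomp.induction_on (p := fun s => ∃ c > 0, ∃ t₀ > 0, ∀ z ∈ s, z ∈ closure G → ∀ t : ℝ, 0 < t → t ≤ t₀ →
      ball (z + t * τ z) (c * t) ⊆ G) ?_ ?_ ?_ ?_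
    · exact ⟨1, one_pos, 1, one_pos, fun z hz => absurd hz (notMem_empty z)⟩
    · rintro s t hst ⟨c, hc, t₀, ht₀, h⟩
      exact ⟨c, hc, t₀, ht₀, fun z hz => h z (hst hz)⟩
    · rintro s t ⟨c, hc, t₀, ht₀, h⟩ ⟨c', hc', t₀', ht₀', h'⟩
      refine ⟨min c c', lt_min hc hc', min t₀ t₀', lt_min ht₀ ht₀', fun z hz hzG t ht0 ht => ?_⟩
      rcases hz with hz | hz
      · refine (ball_subset_ball ?_).trans (h z hz hzG t ht0 (ht.trans (min_le_left _ _)))
        gcongr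
        exact min_le_left _ _
      · refine (ball_subset_ball ?_).trans (h' z hz hzG t ht0 (ht.trans (min_le_right _ _)))
        gcongr
        exact min_le_right _ _
    · intro x hx
      obtain ⟨c, hc, t₀, ht₀, h⟩ := hτ x
      have hct : ContinuousAt (τ : ℂ → ℂ) x := hτs.continuous.continuousAt
      obtain ⟨δ, hδ, hδ'⟩ := Metric.continuousAt_iff.1 hct (c / 2) (by positivity)
      refine ⟨ball x (min δ t₀), mem_nhdsWithin_of_mem_nhds (ball_mem_nhds _ (lt_min hδ ht₀)),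
        c / 2, by positivity, t₀ / 2, by positivity, fun z hz hzG t ht0 ht => ?_⟩
      rw [mem_ball] at hz
      have h1 := h z hzG (by rw [← dist_eq_norm]; exact hz.trans_le (min_le_right _ _)) t ht0 (by linarith)
      refine (ball_subset_ball' ?_).trans h1
      have h2 := hδ' (hz.trans_le (min_le_left _ _))
      rw [dist_eq_norm]
      have h3 : z + t * τ z - (z + t * τ x) = t * (τ z - τ x) := by ring
      rw [h3, norm_mul, Complex.norm_real, Real.norm_of_nonneg ht0.le]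
      rw [dist_eq_norm] at h2
      nlinarith
  obtain ⟨c, hc, t₀, ht₀, h⟩ := key
  exact ⟨c, hc, t₀, ht₀, fun z hz => h z hz hz⟩

end

end MP8a09
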