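import Pool.Agent.Helper897.ZS.Constr

open Metric Set Filter Topology Complex
open scoped NNReal ContDiff

namespace MP8a09

noncomputable section

theorem exists_smooth {G : Set ℂ} (hG : IsLipschitzDomain G) {f : ℂ → ℂ} {γ : ℕ} (hγ : 1 ≤ γ)
    (hf : SmoothClass G γ f) (k : ℕ) :
    ∃ f₁ : ℂ → ℂ, SmoothClass G k f₁ ∧ ∀ z ∈ closure G, (f₁ z = 0 ↔ f z = 0) := by
  classical
  obtain ⟨ρ, g, κ₁, a, b, hκ₁, hκ₁1, ha, hb, hρ0, hρ1, hρL, hρz, hgd, hgb⟩ := exists_g hG hγ hf
  obtain ⟨hbd, ho, hconn, -⟩ := hG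
  have hcomp : IsCompact (closure G) := hbd.isCompact_closure
  have hρc : Continuous ρ := by
    have : LipschitzWith 1 ρ := LipschitzWith.of_dist_le_mul fun z w => by
      rw [Real.dist_eq, dist_eq_norm, NNReal.coe_one, one_mul]
      exact hρL z w
    exact this.continuous
  set Ω : Set ℂ := {z | infDist z (closure G) < κ₁ * ρ z ^ 4} with hΩdef
  have hΩo : IsOpen Ω := isOpen_lt (continuous_infDist_pt _) (by fun_prop)
  set N : ℕ := 4 * k + 2 with hN
  let f₁ : ℂ → ℂ := fun z => if z ∈ Ω then g z ^ N else 0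
  have hclΩ : ∀ z ∈ closure G, 0 < ρ z → z ∈ Ω := by
    intro z hz hp
    change infDist z (closure G) < κ₁ * ρ z ^ 4
    rw [infDist_zero_of_mem hz]
    positivity
  have hΩρ : ∀ z ∈ Ω, 0 < ρ z := by
    intro z hz
    have hz' : infDist z (closure G) < κ₁ * ρ z ^ 4 := hz
    rcases (hρ0 z).eq_or_lt with h | h
    · rw [← h] at hz'
      simp at hz'
      exact absurd hz' (not_lt.2 infDist_nonneg)
    · exact h
  have hf₁0 : ∀ z, ρ z = 0 → f₁ z = 0 := by
    intro z hz
    simp only [f₁]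
    rw [if_neg]
    intro h
    exact (hΩρ z h).ne' hz
  have hf₁Ω : ∀ z ∈ Ω, f₁ z = g z ^ N := fun z hz => by
    simp only [f₁]; rw [if_pos hz]
  have hf₁b : ∀ z, ‖f₁ z‖ ≤ b ^ N * ρ z ^ N := by
    intro z
    by_cases hz : z ∈ Ω
    · rw [hf₁Ω z hz, norm_pow, ← mul_pow]
      exact pow_le_pow_left₀ (norm_nonneg _) (hgb z hz).2 N
    · simp only [f₁]
      rw [if_neg hz, norm_zero]
      have := hρ0 z
      positivity
  have hf₁dΩ : DifferentiableOn ℂ f₁ Ω := (hgd.pow N).congr hf₁Ω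
  have hf₁dΩ' : ∀ z ∈ Ω, DifferentiableAt ℂ f₁ z := fun z hz =>
    (hf₁dΩ z hz).differentiableAt (hΩo.mem_nhds hz)
  have hρle : ∀ z w, ρ z = 0 → ρ w ≤ ‖w - z‖ := by
    intro z w hz
    have := (abs_le.1 (hρL w z)).2
    rw [hz, sub_zero] at this
    exact this
  have hf₁G : ∀ z ∈ G, DifferentiableAt ℂ f₁ z := by
    intro z hz
    rcases (hρ0 z).eq_or_lt with h | h
    · have hb1 : ∀ w, ‖f₁ w‖ ≤ b ^ N * ‖w - z‖ ^ N := fun w =>
        (hf₁b w).trans (by
          have := hρle z w h.symm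
          have := hρ0 w
          gcongr)
      have : HasDerivAt f₁ 0 z := by
        rw [hasDerivAt_iff_isLittleO]
        simp only [hf₁0 z h.symm, sub_zero, smul_zero]
        have h1 : f₁ =O[𝓝 z] fun w => ‖w - z‖ ^ N :=
          Asymptotics.IsBigO.of_bound (b ^ N) (Eventually.of_forall fun w => by
            rw [Real.norm_of_nonneg (by positivity)]
            exact hb1 w)
        have h2 : (fun w => ‖w - z‖ ^ N) =o[𝓝 z] fun w => w - z := by
          have h3 : Tendsto (fun w : ℂ => w - z) (𝓝 z) (𝓝 0) := by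
            have : Continuous (fun w : ℂ => w - z) := by fun_prop
            simpa using this.tendsto z
          have h4 : (fun x : ℂ => ‖x‖ ^ N) =o[𝓝 0] fun x => x :=
            Asymptotics.isLittleO_norm_pow_id (by omega)
          exact h4.comp_tendsto h3
        exact h1.trans_isLittleO h2
      exact this.differentiableAt
    · exact hf₁dΩ' z (hclΩ z (subset_closure hz) h)
  -- Cauchy estimates
  set C : ℝ := k.factorial * (b ^ N * 2 ^ N) / (κ₁ / 32) ^ k with hC
  have hC0 : 0 ≤ C := by positivity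
  have hest : ∀ z ∈ closure G, 0 < ρ z → ‖iteratedDeriv k f₁ z‖ ≤ C * ρ z := by
    intro z hz hp
    set r : ℝ := κ₁ / 32 * ρ z ^ 4 with hr
    have hr0 : 0 < r := by positivity
    have p1 : ρ z ^ 2 ≤ ρ z := by nlinarith [hρ1 z]
    have p2 : ρ z ^ 4 ≤ ρ z ^ 2 := by
      have : ρ z ^ 4 = ρ z ^ 2 * ρ z ^ 2 := by ring
      rw [this]
      nlinarith [hρ1 z, sq_nonneg (ρ z)]
    have p3 : ρ z ^ 4 ≤ ρ z := p2.trans p1
    have hr1 : r ≤ ρ z / 2 := by
      rw [hr]
      nlinarith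
    have hcb : closedBall z r ⊆ Ω := by
      intro w hw
      rw [mem_closedBall, dist_eq_norm] at hw
      change infDist w (closure G) < κ₁ * ρ w ^ 4
      have e1 : infDist w (closure G) ≤ r := by
        refine (infDist_le_dist_of_mem hz).trans ?_
        rw [dist_eq_norm]; exact hw
      have e2 : ρ z / 2 ≤ ρ w := by
        have := (abs_le.1 (hρL w z)).1
        linarith
      have e3 : (ρ z / 2) ^ 4 ≤ ρ w ^ 4 := pow_le_pow_left₀ (by positivity) e2 4
      have e4 : r < κ₁ * (ρ z / 2) ^ 4 := by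
        rw [hr]
        have : 0 < κ₁ * ρ z ^ 4 := by positivity
        nlinarith
      have e5 : κ₁ * (ρ z / 2) ^ 4 ≤ κ₁ * ρ w ^ 4 := by gcongr
      linarith
    have hdc : DiffContOnCl ℂ f₁ (ball z r) := by
      refine DifferentiableOn.diffContOnCl ?_
      rw [closure_ball z hr0.ne']
      exact hf₁dΩ.mono hcb
    have hsph : ∀ w ∈ sphere z r, ‖f₁ w‖ ≤ b ^ N * (2 * ρ z) ^ N := by
      intro w hw
      rw [mem_sphere, dist_eq_norm] at hw
      refine (hf₁b w).trans ?_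
      have e2 : ρ w ≤ 2 * ρ z := by
        have := (abs_le.1 (hρL w z)).2
        linarith
      have := hρ0 w
      gcongr
    have := Complex.norm_iteratedDeriv_le_of_forall_mem_sphere_norm_le k hr0 hdc hsph
    refine this.trans ?_
    rw [hC, hr]
    have e6 : (k.factorial : ℝ) * (b ^ N * (2 * ρ z) ^ N) / (κ₁ / 32 * ρ z ^ 4) ^ k =
        k.factorial * (b ^ N * 2 ^ N) / (κ₁ / 32) ^ k * ρ z ^ 2 := by
      rw [mul_pow 2 (ρ z) N, mul_pow (κ₁ / 32), hN]
      have e7 : ρ z ^ (4 * k + 2) = (ρ z ^ 4) ^ k * ρ z ^ 2 := by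
        rw [pow_add, pow_mul]
      rw [e7]
      field_simp
    rw [e6, ← hC]
    gcongr
  have hzero : ∀ z ∈ G, ρ z = 0 → iteratedDeriv k f₁ z = 0 := by
    intro z hz h0
    obtain ⟨r₀, hr₀, hr₀G⟩ := Metric.isOpen_iff.1 ho z hz
    have hb1 : ∀ w, ‖f₁ w‖ ≤ b ^ N * ‖w - z‖ ^ N := fun w =>
      (hf₁b w).trans (by
        have := hρle z w h0
        have := hρ0 w
        gcongr)
    have hest : ∀ r, 0 < r → r < r₀ → r < 1 → ‖iteratedDeriv k f₁ z‖ ≤ k.factorial * b ^ N * r := by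
      intro r hr hrr hr1
      have hcb : closedBall z r ⊆ G := (closedBall_subset_ball hrr).trans hr₀G
      have hdc : DiffContOnCl ℂ f₁ (ball z r) := by
        refine DifferentiableOn.diffContOnCl ?_
        rw [closure_ball z hr.ne']
        exact fun w hw => (hf₁G w (hcb hw)).differentiableWithinAt
      have hsph : ∀ w ∈ sphere z r, ‖f₁ w‖ ≤ b ^ N * r ^ N := by
        intro w hw
        rw [mem_sphere, dist_eq_norm] at hw
        have := hb1 w
        rwa [hw] at this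
      have := Complex.norm_iteratedDeriv_le_of_forall_mem_sphere_norm_le k hr hdc hsph
      refine this.trans ?_
      have e1 : r ^ N = r ^ k * (r * r ^ (3 * k + 1)) := by
        rw [hN, ← pow_succ', ← pow_add]
        congr 1; ring
      rw [e1, div_le_iff₀ (by positivity)]
      have e2 : r ^ (3 * k + 1) ≤ 1 := pow_le_one₀ hr.le hr1.le
      calc (k.factorial : ℝ) * (b ^ N * (r ^ k * (r * r ^ (3 * k + 1)))) ≤
          (k.factorial : ℝ) * (b ^ N * (r ^ k * (r * 1))) := by gcongr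
        _ = k.factorial * b ^ N * r * r ^ k := by ring
    have hlim : Tendsto (fun r : ℝ => (k.factorial : ℝ) * b ^ N * r) (𝓝[>] 0) (𝓝 0) := by
      have : Continuous (fun r : ℝ => (k.factorial : ℝ) * b ^ N * r) := by fun_prop
      have h2 := (this.tendsto 0).mono_left (nhdsWithin_le_nhds (s := Ioi 0))
      simpa using h2
    have hle : ‖iteratedDeriv k f₁ z‖ ≤ 0 := by
      refine ge_of_tendsto hlim ?_
      have hmem : Ioo 0 (min r₀ 1) ∈ 𝓝[>] (0:ℝ) := Ioo_mem_nhdsGT (lt_min hr₀ one_pos)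
      filter_upwards [hmem] with r hr
      exact hest r hr.1 (hr.2.trans_le (min_le_left _ _)) (hr.2.trans_le (min_le_right _ _))
    exact norm_le_zero_iff.1 hle
  -- the extension of the `k`-th derivative
  let H : ℂ → ℂ := fun z => if ρ z = 0 then 0 else iteratedDeriv k f₁ z
  have han : AnalyticOnNhd ℂ (iteratedDeriv k f₁) Ω := by
    have : ∀ n, AnalyticOnNhd ℂ (iteratedDeriv n f₁) Ω := by
      intro n
      induction n with
      | zero => rw [iteratedDeriv_zero]; exact hf₁dΩ.analyticOnNhd hΩo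
      | succ n ih => rw [iteratedDeriv_succ]; exact ih.deriv
    exact this k
  have hHG : ∀ z ∈ G, iteratedDeriv k f₁ z = H z := by
    intro z hz
    simp only [H]
    split_ifs with h
    · exact hzero z hz h
    · rfl
  have hcontgen : ∀ (h : ℂ → ℂ) (B : ℝ), (∀ z, ρ z = 0 → h z = 0) →
      (∀ z ∈ closure G, ‖h z‖ ≤ B * ρ z) → (∀ z ∈ Ω, ContinuousAt h z) → ContinuousOn h (closure G) := by
    intro h B h0 hB hΩ z hz
    rcases (hρ0 z).eq_or_lt with hp | hp
    · rw [ContinuousWithinAt, h0 z hp.symm]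
      have h1 : Tendsto (fun w => B * ρ w) (𝓝[closure G] z) (𝓝 0) := by
        have : Continuous (fun w => B * ρ w) := by fun_prop
        have h2 := (this.tendsto z).mono_left (nhdsWithin_le_nhds (s := closure G))
        rwa [← hp, mul_zero] at h2
      refine squeeze_zero_norm' ?_ h1
      filter_upwards [self_mem_nhdsWithin] with w hw using hB w hw
    · exact (hΩ z (hclΩ z hz hp)).continuousWithinAt
  have hHc : ContinuousOn H (closure G) := by
    refine hcontgen H C (fun z hz => by simp only [H]; rw [if_pos hz]) ?_ ?_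
    · intro z hz
      rcases (hρ0 z).eq_or_lt with hp | hp
      · simp only [H]
        rw [if_pos hp.symm, ← hp]; simp
      · simp only [H]
        rw [if_neg hp.ne']
        exact hest z hz hp
    · intro z hz
      have h1 : H =ᶠ[𝓝 z] iteratedDeriv k f₁ := by
        filter_upwards [hΩo.mem_nhds hz] with w hw
        simp only [H]
        rw [if_neg (hΩρ w hw).ne']
      exact (han z hz).continuousAt.congr h1.symm
  have hf₁c : ContinuousOn f₁ (closure G) := by
    refine hcontgen f₁ (b ^ N) hf₁0 ?_ (fun z hz => (hf₁dΩ' z hz).continuousAt)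
    intro z _
    refine (hf₁b z).trans ?_
    have h1 := hρ0 z
    have h2 := hρ1 z
    have : ρ z ^ N ≤ ρ z := by
      calc ρ z ^ N ≤ ρ z ^ 1 := pow_le_pow_of_le_one h1 h2 (by omega)
        _ = ρ z := pow_one _
    gcongr
  refine ⟨f₁, ⟨fun z hz => (hf₁G z hz).differentiableWithinAt, ?_, hf₁c⟩, ?_⟩
  · have h1 : UniformContinuousOn H (closure G) := hcomp.uniformContinuousOn_of_continuous hHc
    have h2 : UniformContinuousOn H G := h1.mono subset_closure
    rw [Metric.uniformContinuousOn_iff] at h2 ⊢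
    intro ε hε
    obtain ⟨δ, hδ, h3⟩ := h2 ε hε
    refine ⟨δ, hδ, fun x hx y hy hxy => ?_⟩
    rw [hHG x hx, hHG y hy]
    exact h3 x hx y hy hxy
  · intro z hz
    rw [← hρz z hz]
    constructor
    · intro h
      by_contra hne
      have hp : 0 < ρ z := lt_of_le_of_ne (hρ0 z) (Ne.symm hne)
      have hzΩ := hclΩ z hz hp
      rw [hf₁Ω z hzΩ] at h
      have h1 := pow_eq_zero_iff (by omega) |>.1 h
      have h2 := (hgb z hzΩ).1
      rw [h1, norm_zero] at h2
      have : 0 < a * ρ z := by positivity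
      linarith
    · exact hf₁0 z

/-- **The zero sets of `C^γ(G)` in `clos G` and on `∂G` do not depend on `γ ≥ 1`.** -/
theorem zero_sets_eq {G : Set ℂ} (hG : IsLipschitzDomain G) {γ γ' : ℕ} (hγ : 1 ≤ γ) (hγ' : 1 ≤ γ') :
    ZeroClos G γ = ZeroClos G γ' ∧ ZeroBdry G γ = ZeroBdry G γ' := by
  have key1 : ∀ {γ γ' : ℕ}, 1 ≤ γ → ZeroClos G γ ⊆ ZeroClos G γ' := by
    rintro γ γ' hγ E ⟨f, hf, ⟨z₀, hz₀, hfz₀⟩, rfl⟩
    obtain ⟨f₁, hf₁, hz⟩ := exists_smooth hG hγ hf γ'
    refine ⟨f₁, hf₁, ⟨z₀, hz₀, fun h => hfz₀ ((hz z₀ (subset_closure hz₀)).1 h)⟩, ?_⟩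
    ext z
    constructor
    · rintro ⟨h1, h2⟩
      exact ⟨h1, (hz z h1).2 h2⟩
    · rintro ⟨h1, h2⟩
      exact ⟨h1, (hz z h1).1 h2⟩
  have key2 : ∀ {γ γ' : ℕ}, 1 ≤ γ → ZeroBdry G γ ⊆ ZeroBdry G γ' := by
    rintro γ γ' hγ E ⟨f, hf, ⟨z₀, hz₀, hfz₀⟩, rfl⟩
    obtain ⟨f₁, hf₁, hz⟩ := exists_smooth hG hγ hf γ'
    refine ⟨f₁, hf₁, ⟨z₀, hz₀, fun h => hfz₀ ((hz z₀ (subset_closure hz₀)).1 h)⟩, ?_⟩
    ext z
    constructor
    · rintro ⟨h1, h2⟩
      exact ⟨h1, (hz z (frontier_subset_closure h1)).2 h2⟩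
    · rintro ⟨h1, h2⟩
      exact ⟨h1, (hz z (frontier_subset_closure h1)).1 h2⟩
  exact ⟨Subset.antisymm (key1 hγ) (key1 hγ'), Subset.antisymm (key2 hγ) (key2 hγ')⟩

end

end MP8a09
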