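import Pool.Agent.Helper897.ZS.Dom

open Metric Set Filter Topology Complex
open scoped NNReal ContDiff Uniformity

namespace MP8a09

noncomputable section

/-- uniform bounds for the field -/
lemma field_bounds {τ : ℂ → ℂ} (hτ : ContDiff ℝ ∞ τ) (R : ℝ) :
    ∃ T > 0, (∀ z, ‖z‖ ≤ R → ‖τ z‖ ≤ T) ∧ (∀ z, ‖z‖ ≤ R → ‖fderiv ℝ τ z‖ ≤ T) ∧
      ∀ z w, ‖z‖ ≤ R → ‖w‖ ≤ R → ‖τ z - τ w‖ ≤ T * ‖z - w‖ := by
  have hc : IsCompact (closedBall (0:ℂ) R) := isCompact_closedBall _ _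
  obtain ⟨T₁, hT₁⟩ := hc.exists_bound_of_continuousOn hτ.continuous.continuousOn
  have hτ1 : ContDiff ℝ 1 τ := hτ.of_le (by exact_mod_cast le_top)
  obtain ⟨T₂, hT₂⟩ := hc.exists_bound_of_continuousOn (hτ1.continuous_fderiv one_ne_zero).continuousOn
  have m1 := le_max_left (max T₁ T₂) 1
  have m2 := le_max_left T₁ T₂
  have m3 := le_max_right T₁ T₂
  have hd : ∀ z, ‖z‖ ≤ R → ‖fderiv ℝ τ z‖ ≤ max (max T₁ T₂) 1 := fun z hz =>
    (hT₂ z (by simpa using hz)).trans (m3.trans m1)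
  refine ⟨max (max T₁ T₂) 1, by positivity, ?_, hd, ?_⟩
  · intro z hz
    exact (hT₁ z (by simpa using hz)).trans (m2.trans m1)
  · intro z w hz hw
    refine (convex_closedBall (0:ℂ) R).norm_image_sub_le_of_norm_fderiv_le (𝕜 := ℝ) (f := τ)
      (fun x _ => (hτ1.differentiable one_ne_zero) x) (fun x hx => hd x (by simpa using hx))
      (by simpa using hw) (by simpa using hz)

/-- A bounded derivative gives a uniform local Lipschitz bound. -/
lemma local_lip {G : Set ℂ} {τ : ℂ → ℂ} {c t₀ T : ℝ} (hc : 0 < c) (ht₀ : 0 < t₀) (hT : 0 < T)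
    (hG : ∀ z ∈ closure G, ∀ t : ℝ, 0 < t → t ≤ t₀ → ball (z + t * τ z) (c * t) ⊆ G)
    (hτT : ∀ z ∈ G, ‖τ z‖ ≤ T) (hτL : ∀ z ∈ G, ∀ w ∈ G, ‖τ z - τ w‖ ≤ T * ‖z - w‖) :
    ∃ δ > 0, ∃ A > 0, ∀ (h : ℂ → ℂ) (M : ℝ), 0 ≤ M → (∀ z ∈ G, DifferentiableAt ℂ h z) →
      (∀ z ∈ G, ‖deriv h z‖ ≤ M) → ∀ z ∈ G, ∀ w ∈ G, ‖z - w‖ < δ → ‖h z - h w‖ ≤ A * M * ‖z - w‖ := by
  have hseg : ∀ z ∈ G, ∀ s : ℝ, 0 < s → s ≤ t₀ → segment ℝ z (z + s * τ z) ⊆ G := by
    intro z hz s hs hs'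
    rw [segment_eq_image']
    rintro _ ⟨θ, ⟨hθ0, hθ1⟩, rfl⟩
    rcases hθ0.eq_or_lt with h0 | h0
    · simp [← h0, hz]
    · have h1 := hG z (subset_closure hz) (θ * s) (by positivity) (by nlinarith)
      apply h1
      have : z + θ • (z + s * τ z - z) = z + ((θ * s : ℝ) : ℂ) * τ z := by
        rw [Complex.real_smul]; push_cast; ring
      simp only [this]
      exact mem_ball_self (by positivity)
  refine ⟨min (c * t₀ / 3) (c / (3 * T)), by positivity, 6 * T / c + 2, by positivity,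
    fun h M hM hd hb z hz w hw hzw => ?_⟩
  rcases eq_or_ne z w with rfl | hne
  · simp
  have hpos : 0 < ‖z - w‖ := norm_pos_iff.2 (sub_ne_zero.2 hne)
  set s : ℝ := 3 * ‖z - w‖ / c with hs
  have hs0 : 0 < s := by positivity
  have hst : s ≤ t₀ := by
    rw [hs, div_le_iff₀ hc]
    have := hzw.trans_le (min_le_left _ _)
    linarith
  have hsT : s * T ≤ 1 := by
    have := hzw.trans_le (min_le_right _ _)
    rw [lt_div_iff₀ (by positivity)] at this
    rw [hs, div_mul_eq_mul_div, div_le_one hc]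
    linarith
  have hcs : c * s = 3 * ‖z - w‖ := by rw [hs]; field_simp
  have b1 : ‖h (z + s * τ z) - h z‖ ≤ M * ‖(z + s * τ z) - z‖ :=
    (convex_segment z (z + s * τ z)).norm_image_sub_le_of_norm_deriv_le
      (fun x hx => hd x (hseg z hz s hs0 hst hx)) (fun x hx => hb x (hseg z hz s hs0 hst hx))
      (left_mem_segment _ _ _) (right_mem_segment _ _ _)
  have b3 : ‖h (w + s * τ w) - h w‖ ≤ M * ‖(w + s * τ w) - w‖ :=
    (convex_segment w (w + s * τ w)).norm_image_sub_le_of_norm_deriv_le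
      (fun x hx => hd x (hseg w hw s hs0 hst hx)) (fun x hx => hb x (hseg w hw s hs0 hst hx))
      (left_mem_segment _ _ _) (right_mem_segment _ _ _)
  have hball := hG z (subset_closure hz) s hs0 hst
  have hdist : ‖(w + s * τ w) - (z + s * τ z)‖ ≤ 2 * ‖z - w‖ := by
    have e1 : (w + s * τ w) - (z + s * τ z) = (w - z) + s * (τ w - τ z) := by ring
    rw [e1]
    refine (norm_add_le _ _).trans ?_
    rw [norm_mul, Complex.norm_real, Real.norm_of_nonneg hs0.le, norm_sub_rev w z]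
    have e2 := hτL w hw z hz
    rw [norm_sub_rev w z] at e2
    nlinarith
  have b2 : ‖h (w + s * τ w) - h (z + s * τ z)‖ ≤ M * ‖(w + s * τ w) - (z + s * τ z)‖ := by
    refine (convex_ball (z + s * τ z) (c * s)).norm_image_sub_le_of_norm_deriv_le
      (fun x hx => hd x (hball hx)) (fun x hx => hb x (hball hx)) (mem_ball_self (by positivity)) ?_
    rw [mem_ball, dist_eq_norm, hcs]
    linarith
  have n1 : ‖(z + s * τ z) - z‖ ≤ s * T := by
    rw [add_sub_cancel_left, norm_mul, Complex.norm_real, Real.norm_of_nonneg hs0.le]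
    gcongr
    exact hτT z hz
  have n3 : ‖(w + s * τ w) - w‖ ≤ s * T := by
    rw [add_sub_cancel_left, norm_mul, Complex.norm_real, Real.norm_of_nonneg hs0.le]
    gcongr
    exact hτT w hw
  have e3 : h z - h w = -(h (z + s * τ z) - h z) - (h (w + s * τ w) - h (z + s * τ z)) + (h (w + s * τ w) - h w) := by
    ring
  rw [e3]
  have n4 : ‖-(h (z + s * τ z) - h z) - (h (w + s * τ w) - h (z + s * τ z)) + (h (w + s * τ w) - h w)‖
      ≤ ‖h (z + s * τ z) - h z‖ + ‖h (w + s * τ w) - h (z + s * τ z)‖ + ‖h (w + s * τ w) - h w‖ := by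
    refine (norm_add_le _ _).trans ?_
    have := norm_sub_le (-(h (z + s * τ z) - h z)) (h (w + s * τ w) - h (z + s * τ z))
    rw [norm_neg] at this
    linarith
  refine n4.trans ?_
  have hsT' : s * T = 3 * T / c * ‖z - w‖ := by rw [hs]; field_simp
  calc ‖h (z + s * τ z) - h z‖ + ‖h (w + s * τ w) - h (z + s * τ z)‖ + ‖h (w + s * τ w) - h w‖
      ≤ M * (s * T) + M * (2 * ‖z - w‖) + M * (s * T) := by
        have := mul_le_mul_of_nonneg_left n1 hM
        have := mul_le_mul_of_nonneg_left hdist hM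
        have := mul_le_mul_of_nonneg_left n3 hM
        linarith
    _ = (6 * T / c + 2) * M * ‖z - w‖ := by rw [hsT']; ring

lemma bounded_of_local {G : Set ℂ} (hb : Bornology.IsBounded G) {h : ℂ → ℂ} {δ C : ℝ} (hδ : 0 < δ)
    (hh : ∀ z ∈ G, ∀ w ∈ G, ‖z - w‖ < δ → ‖h z - h w‖ ≤ C) : ∃ B, 0 ≤ B ∧ ∀ z ∈ G, ‖h z‖ ≤ B := by
  have htb : TotallyBounded G := hb.isCompact_closure.totallyBounded.subset subset_closure
  rw [totallyBounded_iff_subset] at htb
  obtain ⟨t, htG, htf, hcov⟩ := htb {p | dist p.1 p.2 < δ} (dist_mem_uniformity hδ)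
  obtain ⟨B, hB⟩ := (htf.image (fun z => ‖h z‖)).bddAbove
  refine ⟨|B| + |C|, by positivity, fun z hz => ?_⟩
  obtain ⟨y, hy, hzy⟩ := mem_iUnion₂.1 (hcov hz)
  have h1 : ‖h y‖ ≤ B := hB (mem_image_of_mem _ hy)
  have h2 := hh z hz y (htG hy) (by rw [← dist_eq_norm]; exact hzy)
  have h3 : ‖h z‖ ≤ ‖h z - h y‖ + ‖h y‖ := by
    simpa using norm_add_le (h z - h y) (h y)
  linarith [le_abs_self B, le_abs_self C]

/-- functions of the class `C^γ`, `γ ≥ 1`, have a bounded derivative -/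
lemma deriv_bounded {G : Set ℂ} (ho : IsOpen G) (hb : Bornology.IsBounded G) {δ A : ℝ} (hδ : 0 < δ)
    (hlip : ∀ (h : ℂ → ℂ) (M : ℝ), 0 ≤ M → (∀ z ∈ G, DifferentiableAt ℂ h z) →
      (∀ z ∈ G, ‖deriv h z‖ ≤ M) → ∀ z ∈ G, ∀ w ∈ G, ‖z - w‖ < δ → ‖h z - h w‖ ≤ A * M * ‖z - w‖)
    (hA : 0 < A) {f : ℂ → ℂ} (hf : DifferentiableOn ℂ f G) {γ : ℕ} (hγ : 1 ≤ γ)
    (hu : UniformContinuousOn (iteratedDeriv γ f) G) :
    ∃ M, 0 ≤ M ∧ ∀ z ∈ G, ‖deriv f z‖ ≤ M := by
  have han : ∀ n, AnalyticOnNhd ℂ (iteratedDeriv n f) G := by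
    intro n
    induction n with
    | zero => rw [iteratedDeriv_zero]; exact hf.analyticOnNhd ho
    | succ n ih => rw [iteratedDeriv_succ]; exact ih.deriv
  have key : ∀ n, n + 1 ≤ γ → ∃ B, 0 ≤ B ∧ ∀ z ∈ G, ‖iteratedDeriv (γ - n) f z‖ ≤ B := by
    intro n
    induction n with
    | zero =>
      intro _
      rw [Nat.sub_zero]
      rw [Metric.uniformContinuousOn_iff] at hu
      obtain ⟨δ', hδ', h1⟩ := hu 1 one_pos
      exact bounded_of_local hb hδ' (C := 1) (fun z hz w hw hzw => by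
        have := h1 z hz w hw (by rwa [dist_eq_norm])
        rw [dist_eq_norm] at this
        exact this.le)
    | succ n ih =>
      intro hn
      obtain ⟨B, hB0, hB⟩ := ih (by omega)
      have e1 : γ - n = (γ - (n + 1)) + 1 := by omega
      rw [e1, iteratedDeriv_succ] at hB
      have h1 := hlip (iteratedDeriv (γ - (n + 1)) f) B hB0
        (fun z hz => (han _ z hz).differentiableAt) hB
      refine bounded_of_local hb (lt_min hδ one_pos) (C := A * B * 1) (fun z hz w hw hzw => ?_)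
      refine (h1 z hz w hw (hzw.trans_le (min_le_left _ _))).trans ?_
      have := (hzw.trans_le (min_le_right _ _)).le
      gcongr
  obtain ⟨B, hB0, hB⟩ := key (γ - 1) (by omega)
  refine ⟨B, hB0, fun z hz => ?_⟩
  have := hB z hz
  have e1 : γ - (γ - 1) = 1 := by omega
  rw [e1, iteratedDeriv_one] at this
  exact this

/-- global Lipschitz bound on the closure -/
lemma lip_closure {G : Set ℂ} (hb : Bornology.IsBounded G) {f : ℂ → ℂ}
    (hc : ContinuousOn f (closure G)) {δ C : ℝ} (hδ : 0 < δ)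
    (h : ∀ z ∈ G, ∀ w ∈ G, ‖z - w‖ < δ → ‖f z - f w‖ ≤ C * ‖z - w‖) :
    ∃ L, 1 ≤ L ∧ (∀ z ∈ closure G, ‖f z‖ ≤ L) ∧
      ∀ z ∈ closure G, ∀ w ∈ closure G, ‖f z - f w‖ ≤ L * ‖z - w‖ := by
  obtain ⟨B, hB⟩ := hb.isCompact_closure.exists_bound_of_continuousOn hc
  have hloc : ∀ z ∈ closure G, ∀ w ∈ closure G, ‖z - w‖ < δ → ‖f z - f w‖ ≤ C * ‖z - w‖ := by
    intro z hz w hw hzw
    have hmem : (z, w) ∈ closure (G ×ˢ G) := by
      rw [closure_prod_eq]; exact ⟨hz, hw⟩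
    have hne : (𝓝[G ×ˢ G] (z, w)).NeBot := mem_closure_iff_nhdsWithin_neBot.1 hmem
    have hfst : Tendsto (fun p : ℂ × ℂ => f p.1) (𝓝[G ×ˢ G] (z, w)) (𝓝 (f z)) := by
      have h1 : Tendsto (fun p : ℂ × ℂ => p.1) (𝓝[G ×ˢ G] (z, w)) (𝓝[closure G] z) := by
        refine tendsto_nhdsWithin_iff.2 ⟨(continuous_fst.tendsto _).mono_left nhdsWithin_le_nhds, ?_⟩
        filter_upwards [self_mem_nhdsWithin] with p hp
        exact subset_closure hp.1
      exact (hc z hz).tendsto.comp h1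
    have hsnd : Tendsto (fun p : ℂ × ℂ => f p.2) (𝓝[G ×ˢ G] (z, w)) (𝓝 (f w)) := by
      have h1 : Tendsto (fun p : ℂ × ℂ => p.2) (𝓝[G ×ˢ G] (z, w)) (𝓝[closure G] w) := by
        refine tendsto_nhdsWithin_iff.2 ⟨(continuous_snd.tendsto _).mono_left nhdsWithin_le_nhds, ?_⟩
        filter_upwards [self_mem_nhdsWithin] with p hp
        exact subset_closure hp.2
      exact (hc w hw).tendsto.comp h1
    have hdiff : Tendsto (fun p : ℂ × ℂ => ‖p.1 - p.2‖) (𝓝[G ×ˢ G] (z, w)) (𝓝 ‖z - w‖) := by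
      have h1 : Continuous (fun p : ℂ × ℂ => ‖p.1 - p.2‖) := by fun_prop
      exact (h1.tendsto (z, w)).mono_left nhdsWithin_le_nhds
    refine le_of_tendsto_of_tendsto (hfst.sub hsnd).norm (hdiff.const_mul C) ?_
    filter_upwards [self_mem_nhdsWithin, hdiff.eventually (gt_mem_nhds hzw)] with p hp hp2
    exact h p.1 hp.1 p.2 hp.2 hp2
  refine ⟨max 1 (max |B| (max C (2 * |B| / δ))), le_max_left _ _, fun z hz => ?_, fun z hz w hw => ?_⟩
  · exact (hB z hz).trans ((le_abs_self _).trans ((le_max_left _ _).trans (le_max_right _ _)))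
  · by_cases hzw : ‖z - w‖ < δ
    · refine (hloc z hz w hw hzw).trans ?_
      gcongr
      exact (le_max_left _ _).trans ((le_max_right _ _).trans (le_max_right _ _))
    · push Not at hzw
      have h1 : ‖f z - f w‖ ≤ 2 * |B| := by
        refine (norm_sub_le _ _).trans ?_
        linarith [hB z hz, hB w hw, le_abs_self B]
      have h2 : 2 * |B| ≤ 2 * |B| / δ * ‖z - w‖ := by
        rw [div_mul_eq_mul_div, le_div_iff₀ hδ]
        gcongr
      refine h1.trans (h2.trans ?_)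
      gcongr
      exact (le_max_right _ _).trans ((le_max_right _ _).trans (le_max_right _ _))

end

end MP8a09
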